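import Mathlib

/-!
# Elementary hyperbolic geometry of length functions on groups
-/

set_option autoImplicit false

namespace Pool.Agent.W375.Geo

variable {G : Type*} [Group G]

/-- Length functions with values in the natural numbers. -/
structure IsLen (L : G → ℕ) : Prop where
  mul : ∀ x y, L (x * y) ≤ L x + L y
  inv : ∀ x, L x⁻¹ = L x
  one : L 1 = 0

/-- Gromov product at the identity. -/
noncomputable def gp (L : G → ℕ) (a b : G) : ℝ := ((L a : ℝ) + (L b : ℝ) - (L (a⁻¹ * b) : ℝ)) / 2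

/-- Gromov hyperbolicity at the identity. -/
def Hyp (L : G → ℕ) (δ : ℝ) : Prop := ∀ x y z : G, min (gp L x y) (gp L y z) - δ ≤ gp L x z

theorem Hyp.fp {L : G → ℕ} {δ : ℝ} (h : Hyp L δ) (w x y z : G) :
    (L (x⁻¹ * z) : ℝ) + L (w⁻¹ * y) ≤
      max ((L (w⁻¹ * z) : ℝ) + L (x⁻¹ * y)) ((L (w⁻¹ * x) : ℝ) + L (y⁻¹ * z)) + 2 * δ := by
  have := h (w⁻¹ * x) (w⁻¹ * y) (w⁻¹ * z)
  simp only [gp] at this
  have e1 : (w⁻¹ * x)⁻¹ * (w⁻¹ * z) = x⁻¹ * z := by group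
  have e2 : (w⁻¹ * x)⁻¹ * (w⁻¹ * y) = x⁻¹ * y := by group
  have e3 : (w⁻¹ * y)⁻¹ * (w⁻¹ * z) = y⁻¹ * z := by group
  rw [e1, e2, e3] at this
  rcases min_cases (((L (w⁻¹ * x) : ℝ) + (L (w⁻¹ * y) : ℝ) - (L (x⁻¹ * y) : ℝ)) / 2)
    (((L (w⁻¹ * y) : ℝ) + (L (w⁻¹ * z) : ℝ) - (L (y⁻¹ * z) : ℝ)) / 2) with h1 | h1
  · rw [h1.1] at this
    have := le_max_left ((L (w⁻¹ * z) : ℝ) + L (x⁻¹ * y)) ((L (w⁻¹ * x) : ℝ) + L (y⁻¹ * z))
    linarith
  · rw [h1.1] at this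
    have := le_max_right ((L (w⁻¹ * z) : ℝ) + L (x⁻¹ * y)) ((L (w⁻¹ * x) : ℝ) + L (y⁻¹ * z))
    linarith

section

variable {L : G → ℕ} (hL : IsLen L)

include hL

theorem IsLen.mulR (x y : G) : (L (x * y) : ℝ) ≤ L x + L y := by exact_mod_cast hL.mul x y

theorem IsLen.pow_le (x : G) (n : ℕ) : L (x ^ n) ≤ n * L x := by
  induction n with
  | zero => simp [hL.one]
  | succ n ih =>
    rw [pow_succ, Nat.succ_mul]
    exact (hL.mul _ _).trans (Nat.add_le_add_right ih _)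

theorem IsLen.pow_leR (x : G) (n : ℕ) : (L (x ^ n) : ℝ) ≤ n * L x := by
  exact_mod_cast hL.pow_le x n

theorem IsLen.rev (x y : G) : L (x⁻¹ * y) = L (y⁻¹ * x) := by
  rw [← hL.inv (x⁻¹ * y)]; congr 1; group

/-- `L (x⁻¹ * z) ≤ L (x⁻¹ * y) + L (y⁻¹ * z)`. -/
theorem IsLen.tri (x y z : G) : (L (x⁻¹ * z) : ℝ) ≤ L (x⁻¹ * y) + L (y⁻¹ * z) := by
  have : x⁻¹ * z = (x⁻¹ * y) * (y⁻¹ * z) := by group
  rw [this]
  exact hL.mulR _ _


/-- Loxodromic elements of hyperbolic length functions: almost additivity along powers. -/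
theorem almost_additive {δ : ℝ} (hδ : Hyp L δ) (t : G) (c : ℝ) (hc : 0 < c)
    (ht : ∀ n : ℕ, c * (n : ℝ) ≤ L (t ^ n)) :
    ∃ M : ℝ, 0 ≤ M ∧ ∀ n m : ℕ, (L (t ^ n) : ℝ) + L (t ^ m) ≤ L (t ^ (n + m)) + M := by
  -- delta is nonnegative
  have hδ0 : 0 ≤ δ := by
    have := hδ 1 1 1
    simp [gp, hL.one] at this
    exact this
  set K : ℝ := 4 * δ + 1 with hK
  -- choose p
  obtain ⟨p, hp⟩ : ∃ p : ℕ, (L (t ^ p) : ℝ) + K ≤ L (t ^ (2 * p)) := by
    by_contra hno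
    push Not at hno
    have h1 : ∀ j : ℕ, (L (t ^ (2 ^ j)) : ℝ) ≤ L t + j * K := by
      intro j
      induction j with
      | zero => simp
      | succ j ih =>
        have := hno (2 ^ j)
        rw [pow_succ, mul_comm (2 ^ j) 2]
        push_cast
        linarith
    obtain ⟨i, hi⟩ := exists_nat_gt ((L t + 2 * K + 1) / c)
    have hi2 : (i : ℝ) ≤ 2 ^ i := by exact_mod_cast (Nat.lt_two_pow_self (n := i)).le
    have h2 : (L t : ℝ) + 2 * K + 1 ≤ c * 2 ^ i := by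
      rw [div_lt_iff₀ hc] at hi
      nlinarith
    have h3 := h1 (2 * i)
    have h4 := ht (2 ^ (2 * i))
    push_cast at h3 h4
    have h5 : (2 : ℝ) ^ (2 * i) = 2 ^ i * 2 ^ i := by rw [two_mul, pow_add]
    rw [h5] at h4
    have hi3 : (i : ℝ) + 1 ≤ 2 ^ i := by exact_mod_cast (Nat.lt_two_pow_self (n := i))
    have hpos : (0 : ℝ) ≤ L t := Nat.cast_nonneg _
    have hK0 : 0 < K := by positivity
    have h6 : ((L t : ℝ) + 2 * K + 1) * (i + 1) ≤ (c * 2 ^ i) * 2 ^ i :=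
      mul_le_mul h2 hi3 (by positivity) (by positivity)
    have hi0 : (0 : ℝ) ≤ i := Nat.cast_nonneg _
    nlinarith [mul_nonneg hpos hi0]
  set T : G := t ^ p with hT
  have hK0 : 0 < K := by positivity
  have hTT : ∀ n : ℕ, T ^ n = t ^ (p * n) := fun n => by rw [hT, ← pow_mul]
  have hT2 : (L T : ℝ) + K ≤ L (T ^ 2) := by
    rw [hTT 2, mul_comm p 2]; exact hp
  have hT2' : (L (T ^ 2) : ℝ) ≤ 2 * L T := by
    have := hL.pow_leR T 2
    exact_mod_cast this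
  -- claim 1
  have c1 : ∀ n : ℕ, (L (T ^ n) : ℝ) + K - 2 * δ ≤ L (T ^ (n + 1)) := by
    intro n
    induction n with
    | zero =>
      simp only [pow_zero, hL.one, zero_add, pow_one, Nat.cast_zero]
      linarith
    | succ n ih =>
      have := hδ.fp (T ^ (n + 1)) (T ^ n) 1 (T ^ (n + 2))
      have e1 : (T ^ n)⁻¹ * T ^ (n + 2) = T ^ 2 := by
        rw [pow_add]; group
      have e2 : (T ^ (n + 1))⁻¹ * 1 = (T ^ (n + 1))⁻¹ := by simp
      have e3 : (T ^ (n + 1))⁻¹ * T ^ (n + 2) = T := by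
        rw [pow_succ T (n + 1)]; group
      have e4 : (T ^ n)⁻¹ * 1 = (T ^ n)⁻¹ := by simp
      have e5 : (T ^ (n + 1))⁻¹ * T ^ n = T⁻¹ := by
        rw [pow_succ]; group
      have e6 : (1 : G)⁻¹ * T ^ (n + 2) = T ^ (n + 2) := by simp
      rw [e1, e2, e3, e4, e5, e6, hL.inv, hL.inv, hL.inv] at this
      rcases max_cases ((L T : ℝ) + L (T ^ n)) ((L T : ℝ) + L (T ^ (n + 2))) with h | h
      · rw [h.1] at this
        linarith
      · rw [h.1] at this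
        linarith
  -- claim 2
  have c2 : ∀ m n : ℕ, (L (T ^ m) : ℝ) + L (T ^ n) ≤ L (T ^ (m + n)) + (L T - K + 4 * δ) := by
    intro m n
    cases m with
    | zero => simp [hL.one]; linarith
    | succ m =>
      have := hδ.fp 1 T⁻¹ (T ^ (m + 1))⁻¹ (T ^ n)
      have e1 : (T⁻¹)⁻¹ * T ^ n = T ^ (n + 1) := by rw [pow_succ']; group
      have e2 : (1 : G)⁻¹ * (T ^ (m + 1))⁻¹ = (T ^ (m + 1))⁻¹ := by simp
      have e3 : (1 : G)⁻¹ * T ^ n = T ^ n := by simp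
      have e4 : (T⁻¹)⁻¹ * (T ^ (m + 1))⁻¹ = (T ^ m)⁻¹ := by rw [pow_succ]; group
      have e5 : (1 : G)⁻¹ * T⁻¹ = T⁻¹ := by simp
      have e6 : ((T ^ (m + 1))⁻¹)⁻¹ * T ^ n = T ^ (m + 1 + n) := by rw [pow_add]; group
      rw [e1, e2, e3, e4, e5, e6, hL.inv, hL.inv, hL.inv] at this
      have h1 := c1 n
      have h2 := c1 m
      rcases max_cases ((L (T ^ n) : ℝ) + L (T ^ m)) ((L T : ℝ) + L (T ^ (m + 1 + n))) with h | h
      · rw [h.1] at this
        linarith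
      · rw [h.1] at this
        linarith
  -- transfer to t
  have hp0 : p ≠ 0 := by
    rintro rfl
    simp only [mul_zero, pow_zero, hL.one, Nat.cast_zero] at hp
    linarith
  have hR : ∀ n : ℕ, ∃ r : ℕ, r < p ∧ n = p * (n / p) + r := fun n =>
    ⟨n % p, Nat.mod_lt _ (Nat.pos_of_ne_zero hp0), (Nat.div_add_mod n p).symm⟩
  have small : ∀ r : ℕ, r < 2 * p → (L (t ^ r) : ℝ) ≤ 2 * p * L t := by
    intro r hr
    have h1 := hL.pow_leR t r
    have h2 : (r : ℝ) ≤ 2 * p := by exact_mod_cast hr.le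
    have h3 : (0 : ℝ) ≤ L t := Nat.cast_nonneg _
    nlinarith
  have hLt : (0 : ℝ) ≤ L t := Nat.cast_nonneg _
  have hM0 : (0 : ℝ) ≤ L T - K + 4 * δ := by linarith
  refine ⟨(L T - K + 4 * δ) + 6 * p * L t, by positivity, fun n m => ?_⟩
  obtain ⟨r, hr, hn⟩ := hR n
  obtain ⟨r', hr', hm⟩ := hR m
  have k1 : (L (t ^ n) : ℝ) ≤ L (T ^ (n / p)) + 2 * p * L t := by
    have e1 : t ^ n = T ^ (n / p) * t ^ r := by
      rw [hTT, ← pow_add, ← hn]
    rw [e1]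
    have := hL.mulR (T ^ (n / p)) (t ^ r)
    have := small r (by omega)
    linarith
  have k2 : (L (t ^ m) : ℝ) ≤ L (T ^ (m / p)) + 2 * p * L t := by
    have e1 : t ^ m = T ^ (m / p) * t ^ r' := by
      rw [hTT, ← pow_add, ← hm]
    rw [e1]
    have := hL.mulR (T ^ (m / p)) (t ^ r')
    have := small r' (by omega)
    linarith
  have k3 : (L (T ^ (n / p + m / p)) : ℝ) ≤ L (t ^ (n + m)) + 2 * p * L t := by
    have e1 : T ^ (n / p + m / p) = t ^ (n + m) * (t ^ (r + r'))⁻¹ := by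
      rw [eq_mul_inv_iff_mul_eq, hTT, ← pow_add]
      congr 1
      have : p * (n / p + m / p) = p * (n / p) + p * (m / p) := by ring
      omega
    rw [e1]
    have h1 := hL.mulR (t ^ (n + m)) (t ^ (r + r'))⁻¹
    have := small (r + r') (by omega)
    rw [hL.inv] at h1
    linarith
  have := c2 (n / p) (m / p)
  linarith

end

end Pool.Agent.W375.Geo
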