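import Mathlib

/-!
# Powers of finite perfect groups are strongly bounded

Every subadditive symmetric length function on an arbitrary power `I → F` of a finite perfect
group `F` is bounded.
-/

set_option autoImplicit false

namespace Pool.Agent.W375.SB

open Classical
open scoped commutatorElement

variable {I F : Type*} [Group F]

/-- The element of `I → F` which is `g` on `A` and `1` off `A`. -/
noncomputable def e (g : F) (A : Set I) : I → F := fun i => if i ∈ A then g else 1

theorem e_mul (g h : F) (A : Set I) : e (g * h) A = e g A * e h A := by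
  funext i
  simp only [e, Pi.mul_apply]
  split_ifs <;> simp

theorem e_one (A : Set I) : e (1 : F) A = 1 := by
  funext i
  simp [e]

theorem e_inv (g : F) (A : Set I) : e g⁻¹ A = (e g A)⁻¹ := by
  funext i
  simp only [e, Pi.inv_apply]
  split_ifs <;> simp

theorem e_diff (g : F) {A B : Set I} (h : B ⊆ A) : e g A = e g B * e g (A \ B) := by
  funext i
  simp only [e, Pi.mul_apply, Set.mem_sdiff]
  by_cases h1 : i ∈ A <;> by_cases h2 : i ∈ B
  · simp [h1, h2]
  · simp [h1, h2]
  · exact absurd (h h2) h1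
  · simp [h1, h2]

section

variable (l : (I → F) → ℕ)

/-- The ideal of sets on which all indicator elements are uniformly bounded. -/
def W (J : Set I) : Prop := ∀ g : F, ∃ C : ℕ, ∀ A : Set I, A ⊆ J → l (e g A) ≤ C

variable (h1 : ∀ x y, l (x * y) ≤ l x + l y) (h2 : ∀ x, l x⁻¹ = l x)

theorem W_mono {J K : Set I} (h : J ⊆ K) (hK : W l K) : W l J := fun g => by
  obtain ⟨C, hC⟩ := hK g
  exact ⟨C, fun A hA => hC A (hA.trans h)⟩

include h1 in
theorem W_union {J K : Set I} (hJ : W l J) (hK : W l K) : W l (J ∪ K) := fun g => by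
  obtain ⟨C, hC⟩ := hJ g
  obtain ⟨D, hD⟩ := hK g
  refine ⟨C + D, fun A hA => ?_⟩
  have e1 : e g A = e g (A ∩ J) * e g (A \ (A ∩ J)) := e_diff g Set.inter_subset_left
  rw [e1]
  refine (h1 _ _).trans (Nat.add_le_add (hC _ Set.inter_subset_right) (hD _ ?_))
  rintro i ⟨hi, hi'⟩
  rcases hA hi with h | h
  · exact absurd ⟨hi, h⟩ hi'
  · exact h

include h1 h2 in
theorem disjoint_seq (hF : commutator F = ⊤) (J : ℕ → Set I)
    (hJ : ∀ m n, m ≠ n → Disjoint (J m) (J n)) : ∃ n, W l (J n) := by
  by_contra hcon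
  push Not at hcon
  have key : ∀ n, ∃ (g c : F) (A : Set I), A ⊆ J n ∧ n + 2 * l (e c (J n)) < l (e ⁅g, c⁆ A) := by
    intro n
    by_contra hno
    push Not at hno
    apply hcon n
    let E : Subgroup F :=
      { carrier := {g | ∃ C : ℕ, ∀ A : Set I, A ⊆ J n → l (e g A) ≤ C}
        mul_mem' := by
          rintro a b ⟨C, hC⟩ ⟨D, hD⟩
          refine ⟨C + D, fun A hA => ?_⟩
          rw [e_mul]
          exact (h1 _ _).trans (Nat.add_le_add (hC A hA) (hD A hA))
        one_mem' := ⟨l 1, fun A _ => by rw [e_one]⟩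
        inv_mem' := by
          rintro a ⟨C, hC⟩
          refine ⟨C, fun A hA => ?_⟩
          rw [e_inv, h2]
          exact hC A hA }
    have hE : E = ⊤ := by
      rw [eq_top_iff, ← hF, commutator_eq_closure, Subgroup.closure_le]
      rintro x ⟨g, c, rfl⟩
      exact ⟨n + 2 * l (e c (J n)), fun A hA => hno g c A hA⟩
    intro g
    have : g ∈ E := by rw [hE]; trivial
    exact this
  choose g c A hA hlt using key
  let y : I → F := fun i => if h : ∃ n, i ∈ A n then g h.choose else 1
  have hy : ∀ n i, i ∈ A n → y i = g n := by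
    intro n i hi
    have h : ∃ n, i ∈ A n := ⟨n, hi⟩
    have hc : h.choose = n := by
      by_contra hne
      exact Set.disjoint_left.1 (hJ _ _ hne) (hA _ h.choose_spec) (hA _ hi)
    simp only [y, dif_pos h, hc]
  have hcomm : ∀ n, ⁅y, e (c n) (J n)⁆ = e ⁅g n, c n⁆ (A n) := by
    intro n
    funext i
    simp only [commutatorElement_def, Pi.mul_apply, Pi.inv_apply]
    by_cases hi : i ∈ J n
    · by_cases hi' : i ∈ A n
      · simp [e, hi, hi', hy n i hi']
      · have hyi : y i = 1 := by
          have : ¬ ∃ m, i ∈ A m := by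
            rintro ⟨m, hm⟩
            have : m ≠ n := by rintro rfl; exact hi' hm
            exact Set.disjoint_left.1 (hJ _ _ this) (hA _ hm) hi
          simp [y, this]
        simp [e, hi, hi', hyi]
    · have hi' : i ∉ A n := fun h => hi (hA _ h)
      simp [e, hi, hi']
  have hb := hlt (2 * l y)
  rw [← hcomm, commutatorElement_def] at hb
  have b1 := h1 (y * e (c (2 * l y)) (J (2 * l y)) * y⁻¹) (e (c (2 * l y)) (J (2 * l y)))⁻¹
  have b2 := h1 (y * e (c (2 * l y)) (J (2 * l y))) y⁻¹
  have b3 := h1 y (e (c (2 * l y)) (J (2 * l y)))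
  rw [h2] at b1 b2
  omega

include h1 h2 in
theorem atom (hF : commutator F = ⊤) (hW : ¬ W l (Set.univ : Set I)) :
    ∃ J : Set I, ¬ W l J ∧ ∀ A ⊆ J, W l A ∨ W l (J \ A) := by
  by_contra hcon
  push Not at hcon
  have hs : ∀ J : {J : Set I // ¬ W l J}, ∃ A : Set I, A ⊆ J.1 ∧ ¬ W l A ∧ ¬ W l (J.1 \ A) :=
    fun J => hcon J.1 J.2
  choose A hA hA1 hA2 using hs
  let s : ℕ → {J : Set I // ¬ W l J} := fun n =>
    Nat.rec ⟨Set.univ, hW⟩ (fun _ J => ⟨J.1 \ A J, hA2 J⟩) n
  have hs1 : ∀ n, (s (n + 1)).1 = (s n).1 \ A (s n) := fun n => rfl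
  have hmono : ∀ m n, m ≤ n → (s n).1 ⊆ (s m).1 := by
    intro m n hmn
    induction n, hmn using Nat.le_induction with
    | base => exact subset_rfl
    | succ n _ ih => rw [hs1]; exact Set.sdiff_subset.trans ih
  have hd : ∀ m n, m < n → Disjoint (A (s m)) (A (s n)) := by
    intro m n hmn
    rw [Set.disjoint_left]
    intro i hi hi'
    have h3 := hmono (m + 1) n hmn (hA _ hi')
    rw [hs1] at h3
    exact h3.2 hi
  obtain ⟨n, hn⟩ := disjoint_seq l h1 h2 hF (fun n => A (s n)) (by
    intro m n hmn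
    rcases lt_or_gt_of_ne hmn with h | h
    · exact hd m n h
    · exact (hd n m h).symm)
  exact hA1 _ hn

include h1 h2 in
theorem W_univ (hF : commutator F = ⊤) : W l (Set.univ : Set I) := by
  by_contra hW
  obtain ⟨J, hJ, hJA⟩ := atom l h1 h2 hF hW
  unfold W at hJ
  push Not at hJ
  obtain ⟨g, hg⟩ := hJ
  have hdiff : ∀ A B : Set I, B ⊆ A → l (e g A) ≤ l (e g B) + l (e g (A \ B)) := by
    intro A B h
    rw [e_diff g h]
    exact h1 _ _
  -- large values on members of the ideal
  have big : ∀ B : ℕ, ∃ A ⊆ J, W l A ∧ B < l (e g A) := by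
    intro B
    obtain ⟨A, hAJ, hA⟩ := hg (B + l (e g J))
    rcases hJA A hAJ with h | h
    · exact ⟨A, hAJ, h, by omega⟩
    · refine ⟨J \ A, Set.sdiff_subset, h, ?_⟩
      have e1 : e g A = e g J * (e g (J \ A))⁻¹ := by
        rw [e_diff g hAJ]; group
      have := h1 (e g J) (e g (J \ A))⁻¹
      rw [← e1, h2] at this
      omega
  have step : ∀ (n : ℕ) (U : {U : Set I // W l U}), ∃ A : Set I, A ⊆ J ∧ Disjoint U.1 A ∧ W l A ∧
      n < l (e g A) := by
    intro n U
    obtain ⟨b, hb⟩ := U.2 g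
    obtain ⟨A, hAJ, hA, hlt⟩ := big (n + b)
    refine ⟨A \ (A ∩ U.1), Set.sdiff_subset.trans hAJ, ?_, W_mono l Set.sdiff_subset hA, ?_⟩
    · rw [Set.disjoint_left]
      rintro i hi ⟨hi1, hi2⟩
      exact hi2 ⟨hi1, hi⟩
    · have := hdiff A (A ∩ U.1) Set.inter_subset_left
      have := hb (A ∩ U.1) Set.inter_subset_right
      omega
  choose A hAJ hAU hAW hlt using step
  let s : ℕ → {U : Set I // W l U} := fun n =>
    Nat.rec ⟨∅, fun g => ⟨l (e g ∅), fun A hA => by
      rw [Set.subset_empty_iff.1 hA]⟩⟩ (fun n U => ⟨U.1 ∪ A n U, W_union l h1 U.2 (hAW n U)⟩) n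
  have hs1 : ∀ n, (s (n + 1)).1 = (s n).1 ∪ A n (s n) := fun n => rfl
  have hmono : ∀ m n, m ≤ n → (s m).1 ⊆ (s n).1 := by
    intro m n hmn
    induction n, hmn using Nat.le_induction with
    | base => exact subset_rfl
    | succ n _ ih => rw [hs1]; exact ih.trans Set.subset_union_left
  have hd : ∀ m n, m < n → Disjoint (A m (s m)) (A n (s n)) := by
    intro m n hmn
    refine Disjoint.mono_left ?_ (hAU n (s n))
    refine Set.Subset.trans ?_ (hmono (m + 1) n hmn)
    rw [hs1]
    exact Set.subset_union_right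
  have hd' : ∀ m n, m ≠ n → Disjoint (A m (s m)) (A n (s n)) := by
    intro m n hmn
    rcases lt_or_gt_of_ne hmn with h | h
    · exact hd m n h
    · exact (hd n m h).symm
  let E : Set I := ⋃ n, A (2 * n) (s (2 * n))
  have hEJ : E ⊆ J := Set.iUnion_subset fun n => hAJ _ _
  have nobig : ∀ (T : Set I) (f : ℕ → ℕ), W l T → (∀ n, n ≤ f n) → (∀ n, A (f n) (s (f n)) ⊆ T) →
      False := by
    intro T f hT hf hsub
    obtain ⟨C, hC⟩ := hT g
    have := hC _ (hsub C)
    have := hlt (f C) (s (f C))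
    have := hf C
    omega
  rcases hJA E hEJ with h | h
  · exact nobig E (fun n => 2 * n) h (fun n => by show n ≤ 2 * n; omega)
      (fun n => Set.subset_iUnion (fun n => A (2 * n) (s (2 * n))) n)
  · refine nobig (J \ E) (fun n => 2 * n + 1) h (fun n => by show n ≤ 2 * n + 1; omega)
      (fun n i hi => ⟨hAJ _ _ hi, ?_⟩)
    intro hi'
    obtain ⟨m, hm⟩ := Set.mem_iUnion.1 hi'
    exact Set.disjoint_left.1 (hd' (2 * n + 1) (2 * m) (by omega)) hi hm

include h1 h2 in
/-- Every symmetric subadditive function on a power of a finite perfect group is bounded. -/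
theorem bounded [Finite F] (hF : commutator F = ⊤) : ∃ C : ℕ, ∀ x : I → F, l x ≤ C := by
  have hW := W_univ l h1 h2 hF
  choose C hC using hW
  have := Fintype.ofFinite F
  refine ⟨∑ g, C g + l 1, fun x => ?_⟩
  have key : ∀ s : Finset F, l (fun i => if x i ∈ s then x i else 1) ≤ ∑ g ∈ s, C g + l 1 := by
    intro s
    induction s using Finset.induction_on with
    | empty =>
      simp only [Finset.notMem_empty, if_false, Finset.sum_empty, zero_add]
      exact le_refl _
    | insert a s ha ih =>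
      have e1 : (fun i => if x i ∈ insert a s then x i else 1) =
          e a {i | x i = a} * (fun i => if x i ∈ s then x i else 1) := by
        funext i
        simp only [e, Pi.mul_apply, Set.mem_ofPred_eq, Finset.mem_insert]
        by_cases h : x i = a
        · simp [h, ha]
        · simp [h]
      rw [e1, Finset.sum_insert ha, add_assoc]
      exact (h1 _ _).trans (Nat.add_le_add (hC a _ (Set.subset_univ _)) ih)
  have := key Finset.univ
  simpa using this

end

end Pool.Agent.W375.SB
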