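import Mathlib
import Pool.Agent.W375.SB
import Pool.Agent.W375.Geo

/-!
# The restricted product of `A_6` relative to `A_5`, extended by the shift
-/

set_option autoImplicit false

namespace Pool.Agent.W375.Grp

open Equiv

/-- The alternating group on six letters. -/
abbrev F := alternatingGroup (Fin 6)

/-- The five nonzero points. -/
abbrev s5 : Finset (Fin 6) := {0}ᶜ

/-- The stabiliser of the point `0` in the alternating group. -/
def F0 : Subgroup F := (alternatingGroup.ofSubtype s5).range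

theorem mem_F0 (x : F) : x ∈ F0 ↔ (x : Perm (Fin 6)) 0 = 0 := by
  rw [F0, alternatingGroup.mem_range_ofSubtype_iff]
  constructor
  · intro h
    by_contra hne
    have := h (Perm.mem_support.2 hne)
    simp at this
  · intro h i hi
    rw [Finset.mem_compl, Finset.mem_singleton]
    rintro rfl
    exact Perm.mem_support.1 hi h

theorem perfect_F : commutator F = ⊤ :=
  commutator_alternatingGroup_eq_top (by simp)

theorem perfect_s5 : commutator (alternatingGroup s5) = ⊤ :=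
  commutator_alternatingGroup_eq_top (by
    simp [Nat.card_eq_fintype_card])

theorem trans_F0 (p q : Fin 6) (hp : p ≠ 0) (hq : q ≠ 0) :
    ∃ a : F, a ∈ F0 ∧ (a : Perm (Fin 6)) p = q := by
  by_cases hpq : p = q
  · exact ⟨1, one_mem _, by simpa using hpq⟩
  · obtain ⟨u, v, huv, h1, h2, h3, h4, h5, h6⟩ : ∃ u v : Fin 6, u ≠ v ∧ u ≠ 0 ∧ v ≠ 0 ∧ u ≠ p ∧
        u ≠ q ∧ v ≠ p ∧ v ≠ q := by
      revert p q
      decide
    refine ⟨⟨swap p q * swap u v, ?_⟩, ?_, ?_⟩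
    · rw [Perm.mem_alternatingGroup, Perm.sign_mul, Perm.sign_swap hpq, Perm.sign_swap huv]
      rfl
    · rw [mem_F0]
      show (swap p q * swap u v) 0 = 0
      rw [Perm.mul_apply, swap_apply_of_ne_of_ne h1.symm h2.symm,
        swap_apply_of_ne_of_ne hp.symm hq.symm]
    · show (swap p q * swap u v) p = q
      rw [Perm.mul_apply, swap_apply_of_ne_of_ne h3.symm h5.symm, swap_apply_left]

theorem double (g : F) (hg : g ∉ F0) (x : F) :
    ∃ a b c : F, a ∈ F0 ∧ b ∈ F0 ∧ c ∈ F0 ∧ a * g * b * g * c = x := by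
  rw [mem_F0] at hg
  have hg' : ((g : Perm (Fin 6))⁻¹) 0 ≠ 0 := by
    intro h
    apply hg
    rw [Perm.inv_eq_iff_eq] at h
    exact h.symm
  obtain ⟨a, b, ha, hb, hab⟩ : ∃ a b : F, a ∈ F0 ∧ b ∈ F0 ∧
      ((a * g * b * g : F) : Perm (Fin 6)) 0 = (x : Perm (Fin 6)) 0 := by
    by_cases hx : (x : Perm (Fin 6)) 0 = 0
    · obtain ⟨b, hb, hb'⟩ := trans_F0 _ _ hg hg'
      refine ⟨1, b, one_mem _, hb, ?_⟩
      simp only [one_mul, Subgroup.coe_mul, Perm.mul_apply]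
      rw [hb', hx]
      simp
    · obtain ⟨r, hr, hr'⟩ : ∃ r : Fin 6, r ≠ 0 ∧ r ≠ ((g : Perm (Fin 6))⁻¹) 0 := by
        generalize ((g : Perm (Fin 6))⁻¹) 0 = w
        revert w
        decide
      obtain ⟨b, hb, hb'⟩ := trans_F0 _ r hg hr
      have hgr : (g : Perm (Fin 6)) r ≠ 0 := by
        intro h
        apply hr'
        rw [Perm.eq_inv_iff_eq]
        exact h
      obtain ⟨a, ha, ha'⟩ := trans_F0 _ _ hgr hx
      refine ⟨a, b, ha, hb, ?_⟩
      simp only [Subgroup.coe_mul, Perm.mul_apply]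
      rw [hb', ha']
  refine ⟨a, b, (a * g * b * g)⁻¹ * x, ha, hb, ?_, by group⟩
  rw [mem_F0, Subgroup.coe_mul, Subgroup.coe_inv, Perm.mul_apply, Perm.inv_eq_iff_eq]
  exact hab.symm

/-- Elements `(m, s)` with `s n ∈ F0` for all large `n`. -/
@[ext]
structure E where
  m : ℤ
  s : ℤ → F
  hs : ∃ N : ℤ, ∀ n, N < n → s n ∈ F0

namespace E

instance : Mul E := ⟨fun g h => ⟨g.m + h.m, fun i => g.s i * h.s (i - g.m), by
  obtain ⟨N, hN⟩ := g.hs
  obtain ⟨N', hN'⟩ := h.hs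
  exact ⟨max N (N' + g.m), fun n hn => mul_mem (hN n (by omega)) (hN' _ (by omega))⟩⟩⟩

instance : One E := ⟨⟨0, 1, 0, fun _ _ => one_mem _⟩⟩

instance : Inv E := ⟨fun g => ⟨-g.m, fun i => (g.s (i + g.m))⁻¹, by
  obtain ⟨N, hN⟩ := g.hs
  exact ⟨N - g.m, fun n hn => inv_mem (hN _ (by omega))⟩⟩⟩

@[simp] theorem mul_m (g h : E) : (g * h).m = g.m + h.m := rfl
@[simp] theorem mul_s (g h : E) (i : ℤ) : (g * h).s i = g.s i * h.s (i - g.m) := rfl
@[simp] theorem one_m : (1 : E).m = 0 := rfl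
@[simp] theorem one_s (i : ℤ) : (1 : E).s i = 1 := rfl
@[simp] theorem inv_m (g : E) : (g⁻¹).m = -g.m := rfl
@[simp] theorem inv_s (g : E) (i : ℤ) : (g⁻¹).s i = (g.s (i + g.m))⁻¹ := rfl

theorem ext' {g h : E} (h1 : g.m = h.m) (h2 : ∀ i, g.s i = h.s i) : g = h :=
  E.ext h1 (funext h2)

instance : Group E := Group.ofLeftAxioms
  (fun a b c => ext' (by simp [add_assoc]) (fun i => by simp [mul_assoc, sub_sub]))
  (fun a => ext' (by simp) (fun i => by simp))
  (fun a => ext' (by simp) (fun i => by simp))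

/-- The shift. -/
def t : E := ⟨1, 1, 0, fun _ _ => one_mem _⟩

@[simp] theorem t_m : t.m = 1 := rfl
@[simp] theorem t_s (i : ℤ) : t.s i = 1 := rfl

theorem t_zpow (n : ℤ) : (t ^ n).m = n ∧ ∀ i, (t ^ n).s i = 1 := by
  induction n using Int.induction_on with
  | zero => simp
  | succ n ih =>
    rw [zpow_add_one]
    refine ⟨by rw [mul_m, ih.1, t_m], fun i => by rw [mul_s, ih.2, t_s, one_mul]⟩
  | pred n ih =>
    rw [zpow_sub_one]
    refine ⟨by rw [mul_m, ih.1, inv_m, t_m]; rfl, fun i => by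
      rw [mul_s, ih.2, inv_s, t_s, one_mul, inv_one]⟩

@[simp] theorem t_zpow_m (n : ℤ) : (t ^ n).m = n := (t_zpow n).1
@[simp] theorem t_zpow_s (n i : ℤ) : (t ^ n).s i = 1 := (t_zpow n).2 i
@[simp] theorem t_pow_m (n : ℕ) : (t ^ n).m = n := by rw [← zpow_natCast, t_zpow_m]
@[simp] theorem t_pow_s (n : ℕ) (i : ℤ) : (t ^ n).s i = 1 := by rw [← zpow_natCast, t_zpow_s]
/-- `t ^ a * g * t ^ b`. -/
theorem conj_m (a b : ℤ) (g : E) : (t ^ a * g * t ^ b).m = a + g.m + b := by simp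

theorem conj_s (a b : ℤ) (g : E) (i : ℤ) : (t ^ a * g * t ^ b).s i = g.s (i - a) := by simp

/-- The subgroup `H_0`. -/
def H0 : Subgroup E where
  carrier := {g | g.m = 0 ∧ ∀ i, 0 < i → g.s i ∈ F0}
  mul_mem' := by
    rintro a b ⟨ha, ha'⟩ ⟨hb, hb'⟩
    refine ⟨by simp [ha, hb], fun i hi => ?_⟩
    simp only [mul_s, ha, sub_zero]
    exact mul_mem (ha' i hi) (hb' i hi)
  one_mem' := ⟨rfl, fun i _ => one_mem _⟩
  inv_mem' := by
    rintro a ⟨ha, ha'⟩
    refine ⟨by simp [ha], fun i hi => ?_⟩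
    simp only [inv_s, ha, add_zero]
    exact inv_mem (ha' i hi)

theorem mem_H0 {g : E} : g ∈ H0 ↔ g.m = 0 ∧ ∀ i, 0 < i → g.s i ∈ F0 := Iff.rfl

end E

end Pool.Agent.W375.Grp
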