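import Mathlib
import Pool.Agent.W375.Grp

/-!
# Hyperbolic length functions on the group `E`
-/

set_option autoImplicit false

namespace Pool.Agent.W375.Core

open Pool.Agent.W375.Geo Pool.Agent.W375.Grp Pool.Agent.W375.Grp.E

/-- The product decomposition homomorphisms. -/
def low (s : ℤ → F) : E := ⟨0, fun i => if i ≤ 0 then s i else 1, 0, fun n hn => by
  rw [if_neg (by omega)]; exact one_mem _⟩

def high (s : ℤ → alternatingGroup s5) : E :=
  ⟨0, fun i => if 0 < i then alternatingGroup.ofSubtype s5 (s i) else 1, 0, fun n hn => by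
    rw [if_pos hn]; exact ⟨_, rfl⟩⟩

theorem low_mul (x y : ℤ → F) : low (x * y) = low x * low y := by
  refine ext' (by simp [low]) (fun i => ?_)
  simp only [low, mul_s, sub_zero, Pi.mul_apply]
  split_ifs <;> simp

theorem low_inv (x : ℤ → F) : low x⁻¹ = (low x)⁻¹ := by
  refine ext' (by simp [low]) (fun i => ?_)
  simp only [low, inv_s, add_zero, Pi.inv_apply]
  split_ifs <;> simp

theorem high_mul (x y : ℤ → alternatingGroup s5) : high (x * y) = high x * high y := by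
  refine ext' (by simp [high]) (fun i => ?_)
  simp only [high, mul_s, sub_zero, Pi.mul_apply]
  split_ifs <;> simp

theorem high_inv (x : ℤ → alternatingGroup s5) : high x⁻¹ = (high x)⁻¹ := by
  refine ext' (by simp [high]) (fun i => ?_)
  simp only [high, inv_s, add_zero, Pi.inv_apply]
  split_ifs <;> simp

/-- `H_0` is bounded for every length function. -/
theorem H0_bounded {L : E → ℕ} (hL : IsLen L) : ∃ C : ℕ, ∀ h ∈ H0, L h ≤ C := by
  obtain ⟨C1, hC1⟩ := SB.bounded (fun s : ℤ → F => L (low s))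
    (fun x y => by rw [low_mul]; exact hL.mul _ _)
    (fun x => by rw [low_inv]; exact hL.inv _) perfect_F
  obtain ⟨C2, hC2⟩ := SB.bounded (fun s : ℤ → alternatingGroup s5 => L (high s))
    (fun x y => by rw [high_mul]; exact hL.mul _ _)
    (fun x => by rw [high_inv]; exact hL.inv _) perfect_s5
  refine ⟨C1 + C2, fun h hh => ?_⟩
  obtain ⟨hm, hs⟩ := hh
  have hs' : ∀ i, ∃ y : alternatingGroup s5, 0 < i → alternatingGroup.ofSubtype s5 y = h.s i := by
    intro i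
    by_cases hi : 0 < i
    · obtain ⟨y, hy⟩ := hs i hi
      exact ⟨y, fun _ => hy⟩
    · exact ⟨1, fun h => absurd h hi⟩
  choose y hy using hs'
  have e1 : h = low h.s * high y := by
    refine ext' (by simp [low, high, hm]) (fun i => ?_)
    simp only [low, high, mul_s, sub_zero]
    by_cases hi : 0 < i
    · rw [if_neg (by omega), if_pos hi, hy i hi, one_mul]
    · rw [if_pos (by omega), if_neg hi, mul_one]
  rw [e1]
  exact (hL.mul _ _).trans (Nat.add_le_add (hC1 _) (hC2 _))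

section

variable {L : E → ℕ} (hL : IsLen L) (C0 : ℕ) (hC0 : ∀ h ∈ H0, L h ≤ C0)

include hC0 in
theorem C0R {h : E} (hh : h ∈ H0) : (L h : ℝ) ≤ C0 := by exact_mod_cast hC0 h hh

/-- Conjugates `t ^ (-k) u t ^ k` eventually lie in `H_0`. -/
theorem conj_mem (u : E) (hu : u.m = 0) :
    ∃ k0 : ℕ, ∀ k : ℕ, k0 ≤ k → (t ^ k)⁻¹ * u * t ^ k ∈ H0 := by
  obtain ⟨N, hN⟩ := u.hs
  refine ⟨N.toNat, fun k hk => ⟨?_, fun i hi => ?_⟩⟩
  · simp [hu]
  · have : ((t ^ k)⁻¹ * u * t ^ k).s i = u.s (i + k) := by simp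
    rw [this]
    exact hN _ (by omega)

theorem conj_s' (u : E) (k : ℕ) (i : ℤ) : ((t ^ k)⁻¹ * u * t ^ k).s i = u.s (i + k) := by simp

theorem conj_m' (u : E) (k : ℕ) : ((t ^ k)⁻¹ * u * t ^ k).m = u.m := by simp

include hL hC0 in
/-- Elements with bounded level have bounded length. -/
theorem level_bounded (k : ℕ) (h : E) (hm : h.m = 0) (hs : ∀ i, (k : ℤ) < i → h.s i ∈ F0) :
    L h ≤ 2 * L (t ^ k) + C0 := by
  have e1 : h = t ^ k * ((t ^ k)⁻¹ * h * t ^ k) * (t ^ k)⁻¹ := by group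
  have h1 : (t ^ k)⁻¹ * h * t ^ k ∈ H0 := by
    refine ⟨by simp [hm], fun i hi => ?_⟩
    rw [conj_s']
    exact hs _ (by omega)
  rw [e1]
  have h2 := hL.mul (t ^ k * ((t ^ k)⁻¹ * h * t ^ k)) (t ^ k)⁻¹
  have h3 := hL.mul (t ^ k) ((t ^ k)⁻¹ * h * t ^ k)
  rw [hL.inv] at h2
  have := hC0 _ h1
  omega

/-- Powers of an element with `m ≥ 0` stay at bounded level relative to powers of `t`. -/
theorem pow_level (g : E) (hg : 0 ≤ g.m) (k : ℤ) (hk : ∀ j, k < j → g.s j ∈ F0) (n : ℕ) :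
    (g ^ n).m = g.m * n ∧ ∀ j, k < j → (g ^ n).s (j + g.m * n) ∈ F0 := by
  induction n with
  | zero => simp [one_mem]
  | succ n ih =>
    rw [pow_succ]
    refine ⟨by rw [mul_m, ih.1]; push_cast; ring, fun j hj => ?_⟩
    rw [mul_s, ih.1]
    push_cast
    refine mul_mem ?_ (hk _ ?_)
    · have := ih.2 (j + g.m) (by omega)
      have e1 : j + g.m * (n + 1) = j + g.m + g.m * n := by ring
      rw [e1]
      exact this
    · have e1 : j + g.m * (n + 1) - g.m * n = j + g.m := by ring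
      rw [e1]
      omega

include hL hC0 in
theorem pow_near (g : E) (hg : 0 ≤ g.m) : ∃ C : ℕ, ∀ n : ℕ,
    L ((t ^ (g.m * n))⁻¹ * g ^ n) ≤ C := by
  obtain ⟨N, hN⟩ := g.hs
  refine ⟨2 * L (t ^ N.toNat) + C0, fun n => ?_⟩
  obtain ⟨h1, h2⟩ := pow_level g hg N hN n
  apply level_bounded hL C0 hC0
  · rw [mul_m, h1, ← zpow_neg]
    simp
  · intro i hi
    rw [← zpow_neg]
    simp only [mul_s, t_zpow_s, t_zpow_m, one_mul, sub_neg_eq_add]
    exact h2 i (by omega)

/-- Loxodromic elements. -/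
def Lox (L : E → ℕ) (g : E) : Prop := ∃ c : ℝ, 0 < c ∧ ∀ n : ℕ, c * (n : ℝ) ≤ (L (g ^ n) : ℝ)

include hL in
theorem lox_inv {g : E} (h : Lox L g) : Lox L g⁻¹ := by
  obtain ⟨c, hc, h⟩ := h
  refine ⟨c, hc, fun n => ?_⟩
  rw [inv_pow, hL.inv]
  exact h n

include hL hC0 in
theorem lox_m_ne {g : E} (h : Lox L g) : g.m ≠ 0 := by
  intro h0
  obtain ⟨c, hc, h⟩ := h
  obtain ⟨C, hC⟩ := pow_near hL C0 hC0 g h0.ge
  obtain ⟨n, hn⟩ := exists_nat_gt ((C : ℝ) / c)
  have h1 := h n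
  have h2 := hC n
  rw [h0] at h2
  simp only [zero_mul, zpow_zero, inv_one, one_mul] at h2
  have h3 : (L (g ^ n) : ℝ) ≤ C := by exact_mod_cast h2
  rw [div_lt_iff₀ hc] at hn
  linarith

include hL hC0 in
theorem lox_t_pos {g : E} (h : Lox L g) (hg : 0 < g.m) : Lox L t := by
  obtain ⟨c, hc, h⟩ := h
  obtain ⟨C, hC⟩ := pow_near hL C0 hC0 g hg.le
  obtain ⟨m, hm⟩ := Int.eq_ofNat_of_zero_le hg.le
  have hm0 : 0 < m := by omega
  have hmR : (0 : ℝ) < m := by exact_mod_cast hm0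
  have key : ∀ n : ℕ, c * n - C ≤ m * (L (t ^ n) : ℝ) := by
    intro n
    have h1 := h n
    have h2 : (L ((t ^ (g.m * n))⁻¹ * g ^ n) : ℝ) ≤ C := by exact_mod_cast hC n
    have h3 := hL.mulR (t ^ (g.m * n)) ((t ^ (g.m * n))⁻¹ * g ^ n)
    rw [mul_inv_cancel_left] at h3
    have h4 : t ^ (g.m * (n : ℤ)) = (t ^ n) ^ m := by
      rw [hm, ← pow_mul, mul_comm n m]
      exact_mod_cast rfl
    rw [h4] at h3 h2
    have h5 := hL.pow_leR (t ^ n) m
    linarith
  refine ⟨c / m, by positivity, fun n => ?_⟩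
  by_contra hlt
  push Not at hlt
  -- epsilon
  have heps : 0 < c * n - m * (L (t ^ n) : ℝ) := by
    have : c / m * n * m = c * n := by field_simp
    nlinarith
  obtain ⟨l, hl⟩ := exists_nat_gt ((C : ℝ) / (c * n - m * (L (t ^ n) : ℝ)))
  rw [div_lt_iff₀ heps] at hl
  have h1 := key (n * l)
  have h2 := hL.pow_leR (t ^ n) l
  rw [← pow_mul] at h2
  push_cast at h1
  have h3 : (m : ℝ) * L (t ^ (n * l)) ≤ m * (l * L (t ^ n)) := mul_le_mul_of_nonneg_left h2 hmR.le
  nlinarith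

include hL hC0 in
theorem lox_t {g : E} (h : Lox L g) : Lox L t := by
  rcases lt_or_gt_of_ne (lox_m_ne hL C0 hC0 h) with h1 | h1
  · exact lox_t_pos hL C0 hC0 (lox_inv hL h) (by simp; omega)
  · exact lox_t_pos hL C0 hC0 h h1

end

end Pool.Agent.W375.Core
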