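import Mathlib
import Pool.Agent.W375.Core

/-!
# Uniqueness of the quasi-parabolic structure: the main estimates
-/

set_option autoImplicit false

namespace Pool.Agent.W375.Unif

open Pool.Agent.W375.Geo Pool.Agent.W375.Grp Pool.Agent.W375.Grp.E Pool.Agent.W375.Core

/-- Data of a hyperbolic length function for which `H_0` is bounded and `t` is loxodromic. -/
structure Data (L : E → ℕ) (δ c M : ℝ) (C0 : ℕ) : Prop where
  len : IsLen L
  hyp : Hyp L δ
  δ0 : 0 ≤ δ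
  c0 : 0 < c
  M0 : 0 ≤ M
  bd : ∀ h ∈ H0, L h ≤ C0
  lox : ∀ n : ℕ, c * (n : ℝ) ≤ (L (t ^ n) : ℝ)
  add : ∀ n m : ℕ, (L (t ^ n) : ℝ) + L (t ^ m) ≤ L (t ^ (n + m)) + M

variable {L : E → ℕ} {δ c M : ℝ} {C0 : ℕ} (D : Data L δ c M C0)

include D

theorem bdR {h : E} (hh : h ∈ H0) : (L h : ℝ) ≤ C0 := by exact_mod_cast D.bd h hh

/-- Length is bounded below by the shift part. -/
theorem busemann_nonneg (g : E) (hg : 0 ≤ g.m) : c * g.m ≤ L g + C0 + M := by
  obtain ⟨m, hm⟩ := Int.eq_ofNat_of_zero_le hg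
  have e0 : ((t ^ m)⁻¹ * g).m = 0 := by simp [hm]
  obtain ⟨k0, hk0⟩ := conj_mem ((t ^ m)⁻¹ * g) e0
  have h1 := bdR D (hk0 k0 le_rfl)
  -- g t^k0 = t^(m+k0) * (conjugate)
  have e1 : g * t ^ k0 = t ^ (m + k0) * ((t ^ k0)⁻¹ * ((t ^ m)⁻¹ * g) * t ^ k0) := by
    rw [pow_add]; group
  have e2 : t ^ (m + k0) = (g * t ^ k0) * ((t ^ k0)⁻¹ * ((t ^ m)⁻¹ * g) * t ^ k0)⁻¹ := by
    rw [e1]; group
  have h2 := D.len.mulR (g * t ^ k0) ((t ^ k0)⁻¹ * ((t ^ m)⁻¹ * g) * t ^ k0)⁻¹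
  rw [← e2, D.len.inv] at h2
  have h3 := D.len.mulR g (t ^ k0)
  have h4 := D.add m k0
  have h5 := D.lox m
  have h6 : (g.m : ℝ) = m := by rw [hm]; simp
  rw [h6]
  linarith

theorem busemann (g : E) : c * |(g.m : ℝ)| ≤ L g + C0 + M := by
  rcases le_total 0 g.m with h | h
  · rw [abs_of_nonneg (by exact_mod_cast h)]
    exact busemann_nonneg D g h
  · rw [abs_of_nonpos (by exact_mod_cast h)]
    have := busemann_nonneg D g⁻¹ (by simp [h])
    rw [D.len.inv] at this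
    simpa using this

/-- The shrinking lemma. -/
theorem shrink (u : E) (hu : u.m = 0) (n : ℕ) (hn : (L u : ℝ) + M + 2 * δ < L (t ^ n)) :
    (L ((t ^ n)⁻¹ * u * t ^ n) : ℝ) ≤ C0 + 2 * M + 4 * δ := by
  have hL := D.len
  obtain ⟨k0, hk0⟩ := conj_mem u hu
  obtain ⟨j, hj⟩ : ∃ j : ℕ, k0 ≤ n + j := ⟨k0, by omega⟩
  have hk := bdR D (hk0 (n + j) hj)
  -- notation: x_n = t^n, y_n = u t^n, x_k = t^(n+j), y_k = u t^(n+j)
  have a1 : (L (t ^ n) : ℝ) + L (t ^ j) ≤ L (t ^ (n + j)) + M := D.add n j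
  have e_yy : (u * t ^ n)⁻¹ * (u * t ^ (n + j)) = t ^ j := by rw [pow_add]; group
  have e_uy : u⁻¹ * (u * t ^ (n + j)) = t ^ (n + j) := by group
  have e_yu : (u * t ^ n)⁻¹ * u = (t ^ n)⁻¹ := by group
  have e_y1 : (u * t ^ n)⁻¹ * 1 = (u * t ^ n)⁻¹ := by group
  have e_u1 : u⁻¹ * 1 = u⁻¹ := by group
  have e_1y : (1 : E)⁻¹ * (u * t ^ (n + j)) = u * t ^ (n + j) := by group
  -- step 1
  have s1 := D.hyp.fp (u * t ^ n) u 1 (u * t ^ (n + j))
  rw [e_yy, e_uy, e_yu, e_y1, e_u1, e_1y, hL.inv, hL.inv, hL.inv] at s1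
  have t1 : (L (t ^ n) : ℝ) ≤ L u + L (u * t ^ n) := by
    have := hL.mulR u⁻¹ (u * t ^ n)
    rw [inv_mul_cancel_left, hL.inv] at this
    exact this
  have hδ := D.δ0
  have hM := D.M0
  have E1 : (L (t ^ j) : ℝ) + L (u * t ^ n) - M - 2 * δ ≤ L (u * t ^ (n + j)) := by
    rcases max_cases ((L (t ^ j) : ℝ) + L u) ((L (t ^ n) : ℝ) + L (u * t ^ (n + j))) with h | h
    · rw [h.1] at s1
      linarith
    · rw [h.1] at s1
      linarith
  -- step 2
  have s2 := D.hyp.fp 1 (t ^ n) (u * t ^ (n + j)) (u * t ^ n)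
  have f1 : (t ^ n)⁻¹ * (u * t ^ n) = (t ^ n)⁻¹ * u * t ^ n := by group
  have f2 : (1 : E)⁻¹ * (u * t ^ n) = u * t ^ n := by group
  have f3 : (1 : E)⁻¹ * t ^ n = t ^ n := by group
  have f4 : (u * t ^ (n + j))⁻¹ * (u * t ^ n) = (t ^ j)⁻¹ := by rw [pow_add]; group
  rw [f1, f2, e_1y, f3, f4, hL.inv] at s2
  have t2 : (L ((t ^ n)⁻¹ * (u * t ^ (n + j))) : ℝ) ≤ L (t ^ j) + C0 := by
    have e : (t ^ n)⁻¹ * (u * t ^ (n + j)) =
        t ^ j * ((t ^ (n + j))⁻¹ * u * t ^ (n + j)) := by rw [pow_add]; group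
    rw [e]
    have := hL.mulR (t ^ j) ((t ^ (n + j))⁻¹ * u * t ^ (n + j))
    linarith
  have t3 : (L (t ^ (n + j)) : ℝ) ≤ L (u * t ^ (n + j)) + C0 := by
    have e : t ^ (n + j) = (u * t ^ (n + j)) * ((t ^ (n + j))⁻¹ * u * t ^ (n + j))⁻¹ := by group
    have := hL.mulR (u * t ^ (n + j)) ((t ^ (n + j))⁻¹ * u * t ^ (n + j))⁻¹
    rw [← e, hL.inv] at this
    linarith
  have t4 : (L (u * t ^ (n + j)) : ℝ) ≤ L (u * t ^ n) + L (t ^ j) := by
    have e : u * t ^ (n + j) = (u * t ^ n) * t ^ j := by rw [pow_add]; group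
    rw [e]
    exact hL.mulR _ _
  rcases max_cases ((L (u * t ^ n) : ℝ) + L ((t ^ n)⁻¹ * (u * t ^ (n + j))))
    ((L (t ^ n) : ℝ) + L (t ^ j)) with h | h
  · rw [h.1] at s2
    linarith
  · rw [h.1] at s2
    linarith

/-- For each `R` a threshold after which the shrinking lemma applies. -/
theorem threshold (R : ℝ) : ∃ N : ℕ, ∀ n : ℕ, N ≤ n → R + M + 2 * δ < L (t ^ n) := by
  obtain ⟨N, hN⟩ := exists_nat_gt ((R + M + 2 * δ) / c)
  refine ⟨N, fun n hn => ?_⟩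
  rw [div_lt_iff₀ D.c0] at hN
  have h1 := D.lox n
  have h2 : (N : ℝ) ≤ n := by exact_mod_cast hn
  have h3 := D.c0
  nlinarith

/-- A uniform bound for all forward conjugates. -/
theorem unif (R : ℕ) : ∃ B : ℕ, ∀ u : E, u.m = 0 → L u ≤ R → ∀ n : ℕ,
    L ((t ^ n)⁻¹ * u * t ^ n) ≤ B := by
  obtain ⟨N, hN⟩ := threshold D R
  obtain ⟨B1, hB1⟩ := exists_nat_gt ((C0 : ℝ) + 2 * M + 4 * δ)
  refine ⟨max B1 (2 * (N * L t) + R), fun u hu hR n => ?_⟩
  rcases le_total N n with h | h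
  · have h1 := shrink D u hu n (by
      have h2 := hN n h
      have h3 : (L u : ℝ) ≤ R := by exact_mod_cast hR
      linarith)
    refine le_trans ?_ (le_max_left _ _)
    have : (L ((t ^ n)⁻¹ * u * t ^ n) : ℝ) ≤ B1 := by linarith
    exact_mod_cast this
  · refine le_trans ?_ (le_max_right _ _)
    have h1 := D.len.mul ((t ^ n)⁻¹ * u) (t ^ n)
    have h2 := D.len.mul (t ^ n)⁻¹ u
    rw [D.len.inv] at h2
    have h3 := D.len.pow_le t n
    have h4 : n * L t ≤ N * L t := Nat.mul_le_mul_right _ h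
    omega

/-- The element supported at the coordinate `i`. -/
theorem exists_big (C2 : ℕ) (i : ℤ) (x : F) (g : E) (hg : g.m = 0) (hgi : g.s i ∉ F0)
    (hLg : L g ≤ C2) (e : E) (he : e.m = 0) (hei : e.s i = x) (hej : ∀ j, j ≠ i → e.s j = 1) :
    L e ≤ 3 * C0 + 2 * C2 := by
  have key : ∀ j : ℤ, ∃ a b d : F, (0 < j → a ∈ F0 ∧ b ∈ F0 ∧ d ∈ F0) ∧
      a * g.s j * b * g.s j * d = e.s j := by
    intro j
    by_cases hj : g.s j ∈ F0
    · have hji : j ≠ i := by rintro rfl; exact hgi hj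
      exact ⟨1, (g.s j)⁻¹, (g.s j)⁻¹, fun _ => ⟨one_mem _, inv_mem hj, inv_mem hj⟩, by
        rw [hej j hji]; group⟩
    · obtain ⟨a, b, d, ha, hb, hd, h⟩ := double (g.s j) hj (e.s j)
      exact ⟨a, b, d, fun _ => ⟨ha, hb, hd⟩, h⟩
  choose a b d h0 h1 using key
  let A : E := ⟨0, a, 0, fun n hn => (h0 n hn).1⟩
  let B : E := ⟨0, b, 0, fun n hn => (h0 n hn).2.1⟩
  let Dd : E := ⟨0, d, 0, fun n hn => (h0 n hn).2.2⟩
  have hA : A ∈ H0 := ⟨rfl, fun n hn => (h0 n hn).1⟩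
  have hB : B ∈ H0 := ⟨rfl, fun n hn => (h0 n hn).2.1⟩
  have hD : Dd ∈ H0 := ⟨rfl, fun n hn => (h0 n hn).2.2⟩
  have e1 : e = A * g * B * g * Dd := by
    refine ext' (by simp [A, B, Dd, he, hg]) (fun j => ?_)
    simp only [A, B, Dd, mul_s, mul_m, hg, add_zero, sub_zero]
    exact (h1 j).symm
  rw [e1]
  have k1 := D.len.mul (A * g * B * g) Dd
  have k2 := D.len.mul (A * g * B) g
  have k3 := D.len.mul (A * g) B
  have k4 := D.len.mul A g
  have k5 := D.bd _ hA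
  have k6 := D.bd _ hB
  have k7 := D.bd _ hD
  omega

/-- If elements of `H` of arbitrarily high level have bounded length, then `H` is bounded. -/
theorem H_bounded (C2 : ℕ) (hbig : ∀ K : ℕ, ∃ (g : E) (i : ℤ), g.m = 0 ∧ (K : ℤ) < i ∧
    g.s i ∉ F0 ∧ L g ≤ C2) : ∃ C : ℕ, ∀ h : E, h.m = 0 → L h ≤ C := by
  obtain ⟨C4, hC4⟩ := unif D (3 * C0 + 2 * C2)
  -- single coordinate elements
  have single : ∀ (i : ℤ) (e : E), e.m = 0 → (∀ j, j ≠ i → e.s j = 1) → L e ≤ C4 := by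
    intro i e he hej
    obtain ⟨g, i', hg, hi', hgi, hLg⟩ := hbig i.toNat
    obtain ⟨n, hn⟩ := Int.eq_ofNat_of_zero_le (show 0 ≤ i' - i by omega)
    have e1 : e = (t ^ n)⁻¹ * (t ^ n * e * (t ^ n)⁻¹) * t ^ n := by group
    rw [e1]
    refine hC4 _ (by simp [he]) ?_ n
    refine exists_big D C2 i' _ g hg hgi hLg _ (by simp [he]) rfl (fun j hj => ?_)
    have : (t ^ n * e * (t ^ n)⁻¹).s j = e.s (j - n) := by simp
    rw [this]
    exact hej _ (by omega)
  obtain ⟨C7, hC7⟩ := exists_nat_gt ((C0 : ℝ) + 2 * M + 4 * δ)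
  set C8 := max C4 C7 with hC8
  obtain ⟨N0, hN0⟩ := threshold D (2 * C8 : ℕ)
  -- finitely supported elements
  have fin : ∀ (S : Finset ℤ) (m : ℤ) (e : E), e.m = 0 → (∀ j, j + m ∉ S → e.s j = 1) →
      L e ≤ C8 := by
    intro S
    induction S using Finset.induction_on with
    | empty =>
      intro m e he hs
      exact (single 0 e he (fun j _ => hs j (Finset.notMem_empty _))).trans (le_max_left _ _)
    | insert a S ha ih =>
      intro m e he hs
      -- shift up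
      let e1 : E := ⟨0, fun j => if j - N0 + m = a then 1 else e.s (j - N0), by
        obtain ⟨N, hN⟩ := e.hs
        refine ⟨N + N0, fun j hj => ?_⟩
        split_ifs
        · exact one_mem _
        · exact hN _ (by omega)⟩
      let e2 : E := ⟨0, fun j => if j - N0 + m = a then e.s (j - N0) else 1, by
        obtain ⟨N, hN⟩ := e.hs
        refine ⟨N + N0, fun j hj => ?_⟩
        split_ifs
        · exact hN _ (by omega)
        · exact one_mem _⟩
      have h1 : L e1 ≤ C8 := by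
        refine ih (m - N0) e1 rfl (fun j hj => ?_)
        simp only [e1]
        split_ifs with hja
        · rfl
        · refine hs _ ?_
          rw [Finset.mem_insert, not_or]
          refine ⟨hja, ?_⟩
          have : j - N0 + m = j + (m - N0) := by ring
          rw [this]
          exact hj
      have h2 : L e2 ≤ C8 := by
        refine (single (a + N0 - m) e2 rfl (fun j hj => ?_)).trans (le_max_left _ _)
        simp only [e2]
        rw [if_neg (by omega)]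
      have h3 : L (e1 * e2) ≤ 2 * C8 := by
        have := D.len.mul e1 e2
        omega
      have e3 : e = (t ^ N0)⁻¹ * (e1 * e2) * t ^ N0 := by
        refine ext' (by simp [e1, e2, he]) (fun j => ?_)
        rw [conj_s']
        simp only [e1, e2, mul_s, sub_zero, add_sub_cancel_right]
        split_ifs <;> simp
      have h4 := shrink D (e1 * e2) (by simp [e1, e2]) N0 (by
        have h5 := hN0 N0 le_rfl
        have h6 : (L (e1 * e2) : ℝ) ≤ (2 * C8 : ℕ) := by exact_mod_cast h3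
        linarith)
      rw [e3]
      have h7 : (L ((t ^ N0)⁻¹ * (e1 * e2) * t ^ N0) : ℝ) ≤ C7 := by linarith
      have h8 : L ((t ^ N0)⁻¹ * (e1 * e2) * t ^ N0) ≤ C7 := by exact_mod_cast h7
      exact h8.trans (le_max_right _ _)
  refine ⟨C0 + C8, fun h hh => ?_⟩
  obtain ⟨N, hN⟩ := h.hs
  let h1 : E := ⟨0, fun j => if 0 < j ∧ j ≤ N then 1 else h.s j, by
    refine ⟨N, fun j hj => ?_⟩
    rw [if_neg (by omega)]
    exact hN j hj⟩
  let h2 : E := ⟨0, fun j => if 0 < j ∧ j ≤ N then h.s j else 1, by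
    refine ⟨N, fun j hj => ?_⟩
    rw [if_neg (by omega)]
    exact one_mem _⟩
  have k1 : h = h1 * h2 := by
    refine ext' (by simp [h1, h2, hh]) (fun j => ?_)
    simp only [h1, h2, mul_s, sub_zero]
    split_ifs <;> simp
  have k2 : h1 ∈ H0 := by
    refine ⟨rfl, fun j hj => ?_⟩
    simp only [h1]
    split_ifs with hjN
    · exact one_mem _
    · exact hN j (by omega)
  have k3 : L h2 ≤ C8 := by
    refine fin (Finset.Ioc 0 N) 0 h2 rfl (fun j hj => ?_)
    simp only [h2]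
    rw [if_neg]
    intro hc
    exact hj (by rw [add_zero, Finset.mem_Ioc]; exact hc)
  rw [k1]
  have := D.len.mul h1 h2
  have := D.bd _ k2
  omega

end Pool.Agent.W375.Unif
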