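import Mathlib
import Pool.Agent.W375.Unif

/-!
# Ends, the tree metric and the generating set `H_0 ∪ {t}`
-/

set_option autoImplicit false

namespace Pool.Agent.W375.Fin

open Pool.Agent.W375.Geo Pool.Agent.W375.Grp Pool.Agent.W375.Grp.E Pool.Agent.W375.Core
open Pool.Agent.W375.Unif
open scoped Pointwise

/-- Two elements have the same attracting end. -/
def SameEnd (L : E → ℕ) (a b : E) : Prop :=
  ∀ K : ℝ, ∃ N : ℕ, ∀ n m : ℕ, N ≤ n → N ≤ m → K ≤ gp L (a ^ n) (b ^ m)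

theorem pow_m (g : E) (n : ℕ) : (g ^ n).m = g.m * n := by
  induction n with
  | zero => simp
  | succ n ih => rw [pow_succ, mul_m, ih]; push_cast; ring

section

variable {L : E → ℕ} {δ c M : ℝ} {C0 : ℕ} (D : Data L δ c M C0)

include D

theorem gp_perturb (x y h k : E) : gp L x y - L h - L k ≤ gp L (x * h) (y * k) := by
  have hL := D.len
  have h1 : (L x : ℝ) ≤ L (x * h) + L h := by
    have := hL.mulR (x * h) h⁻¹
    rwa [mul_inv_cancel_right, hL.inv] at this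
  have h2 : (L y : ℝ) ≤ L (y * k) + L k := by
    have := hL.mulR (y * k) k⁻¹
    rwa [mul_inv_cancel_right, hL.inv] at this
  have h3 : (L ((x * h)⁻¹ * (y * k)) : ℝ) ≤ L h + L (x⁻¹ * y) + L k := by
    have e : (x * h)⁻¹ * (y * k) = h⁻¹ * (x⁻¹ * y) * k := by group
    rw [e]
    have a1 := hL.mulR (h⁻¹ * (x⁻¹ * y)) k
    have a2 := hL.mulR h⁻¹ (x⁻¹ * y)
    rw [hL.inv] at a2
    linarith
  simp only [gp]
  linarith

theorem gp_t (a b : ℕ) : c * (min a b : ℕ) - M / 2 ≤ gp L (t ^ a) (t ^ b) := by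
  have hL := D.len
  rcases le_total a b with h | h
  · obtain ⟨k, rfl⟩ := Nat.exists_eq_add_of_le h
    rw [min_eq_left h]
    have e : (t ^ a)⁻¹ * t ^ (a + k) = t ^ k := by rw [pow_add]; group
    simp only [gp, e]
    have h1 := D.add a k
    have h2 := D.lox a
    linarith
  · obtain ⟨k, rfl⟩ := Nat.exists_eq_add_of_le h
    rw [min_eq_right h]
    have e : (t ^ (b + k))⁻¹ * t ^ b = (t ^ k)⁻¹ := by rw [pow_add]; group
    simp only [gp, e, hL.inv]
    have h1 := D.add b k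
    have h2 := D.lox b
    linarith

theorem gp_t_inv (a b : ℕ) : c * (min a b : ℕ) - M / 2 ≤ gp L (t ^ a)⁻¹ (t ^ b)⁻¹ := by
  have hL := D.len
  rcases le_total a b with h | h
  · obtain ⟨k, rfl⟩ := Nat.exists_eq_add_of_le h
    rw [min_eq_left h]
    have e : ((t ^ a)⁻¹)⁻¹ * (t ^ (a + k))⁻¹ = (t ^ k)⁻¹ := by
      rw [pow_add]
      have : Commute (t ^ a) (t ^ k) := (Commute.refl t).pow_pow _ _
      rw [this.eq]; group
    simp only [gp, e, hL.inv]
    have h1 := D.add a k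
    have h2 := D.lox a
    linarith
  · obtain ⟨k, rfl⟩ := Nat.exists_eq_add_of_le h
    rw [min_eq_right h]
    have e : ((t ^ (b + k))⁻¹)⁻¹ * (t ^ b)⁻¹ = t ^ k := by
      rw [pow_add]
      have : Commute (t ^ b) (t ^ k) := (Commute.refl t).pow_pow _ _
      rw [this.eq]; group
    simp only [gp, e, hL.inv]
    have h1 := D.add b k
    have h2 := D.lox b
    linarith

/-- The key growth estimate used for both kinds of ends. -/
theorem grow (p q : ℕ) (hp : 0 < p) (hq : 0 < q) (C K : ℝ) : ∃ N : ℕ, ∀ n m : ℕ, N ≤ n → N ≤ m →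
    K ≤ c * (min (p * n) (q * m) : ℕ) - M / 2 - C := by
  obtain ⟨N, hN⟩ := exists_nat_gt ((K + M / 2 + C) / c)
  refine ⟨N, fun n m hn hm => ?_⟩
  rw [div_lt_iff₀ D.c0] at hN
  have h1 : N ≤ min (p * n) (q * m) := by
    refine le_min ?_ ?_
    · exact hn.trans (Nat.le_mul_of_pos_left _ hp)
    · exact hm.trans (Nat.le_mul_of_pos_left _ hq)
  have h2 : (N : ℝ) ≤ (min (p * n) (q * m) : ℕ) := by exact_mod_cast h1
  have h3 := D.c0
  nlinarith

theorem near_nat (g : E) (hg : 0 < g.m) : ∃ (p C : ℕ), 0 < p ∧ g.m = p ∧ ∀ n : ℕ,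
    L ((t ^ (p * n))⁻¹ * g ^ n) ≤ C := by
  obtain ⟨C, hC⟩ := pow_near D.len C0 D.bd g hg.le
  obtain ⟨p, hp⟩ := Int.eq_ofNat_of_zero_le hg.le
  refine ⟨p, C, by omega, hp, fun n => ?_⟩
  have := hC n
  rw [hp] at this
  exact_mod_cast this

theorem sameEnd_pos (g h : E) (hg : 0 < g.m) (hh : 0 < h.m) : SameEnd L g h := by
  obtain ⟨p, C, hp, -, hC⟩ := near_nat D g hg
  obtain ⟨q, C', hq, -, hC'⟩ := near_nat D h hh
  intro K
  obtain ⟨N, hN⟩ := grow D p q hp hq (C + C') K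
  refine ⟨N, fun n m hn hm => ?_⟩
  have h1 := gp_perturb D (t ^ (p * n)) (t ^ (q * m)) ((t ^ (p * n))⁻¹ * g ^ n)
    ((t ^ (q * m))⁻¹ * h ^ m)
  rw [mul_inv_cancel_left, mul_inv_cancel_left] at h1
  have h2 := gp_t D (p * n) (q * m)
  have h3 := hN n m hn hm
  have h4 : (L ((t ^ (p * n))⁻¹ * g ^ n) : ℝ) ≤ C := by exact_mod_cast hC n
  have h5 : (L ((t ^ (q * m))⁻¹ * h ^ m) : ℝ) ≤ C' := by exact_mod_cast hC' m
  linarith

theorem sameEnd_neg (CH : ℕ) (hCH : ∀ u : E, u.m = 0 → L u ≤ CH) (g h : E) (hg : 0 < g.m)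
    (hh : 0 < h.m) : SameEnd L g⁻¹ h⁻¹ := by
  obtain ⟨p, C, hp, hgp, -⟩ := near_nat D g hg
  obtain ⟨q, C', hq, hhq, -⟩ := near_nat D h hh
  intro K
  obtain ⟨N, hN⟩ := grow D p q hp hq (CH + CH) K
  refine ⟨N, fun n m hn hm => ?_⟩
  have h1 := gp_perturb D (t ^ (p * n))⁻¹ (t ^ (q * m))⁻¹ (t ^ (p * n) * g⁻¹ ^ n)
    (t ^ (q * m) * h⁻¹ ^ m)
  rw [inv_mul_cancel_left, inv_mul_cancel_left] at h1
  have h2 := gp_t_inv D (p * n) (q * m)
  have h3 := hN n m hn hm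
  have h4 : (L (t ^ (p * n) * g⁻¹ ^ n) : ℝ) ≤ CH := by
    have := hCH (t ^ (p * n) * g⁻¹ ^ n) (by
      rw [mul_m, pow_m g⁻¹, inv_m, hgp, t_pow_m]; push_cast; ring)
    exact_mod_cast this
  have h5 : (L (t ^ (q * m) * h⁻¹ ^ m) : ℝ) ≤ CH := by
    have := hCH (t ^ (q * m) * h⁻¹ ^ m) (by
      rw [mul_m, pow_m h⁻¹, inv_m, hhq, t_pow_m]; push_cast; ring)
    exact_mod_cast this
  linarith

/-- If `H` is bounded, any two loxodromic elements have the same pair of ends. -/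
theorem same_pairs (CH : ℕ) (hCH : ∀ u : E, u.m = 0 → L u ≤ CH) (g h : E) (hg : Lox L g)
    (hh : Lox L h) : (SameEnd L g h ∧ SameEnd L g⁻¹ h⁻¹) ∨ (SameEnd L g h⁻¹ ∧ SameEnd L g⁻¹ h) := by
  rcases lt_or_gt_of_ne (lox_m_ne D.len C0 D.bd hg) with h1 | h1 <;>
  rcases lt_or_gt_of_ne (lox_m_ne D.len C0 D.bd hh) with h2 | h2
  · left
    have k1 : 0 < (g⁻¹).m := by simp; omega
    have k2 : 0 < (h⁻¹).m := by simp; omega
    have a := sameEnd_neg D CH hCH g⁻¹ h⁻¹ k1 k2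
    rw [inv_inv, inv_inv] at a
    exact ⟨a, sameEnd_pos D _ _ k1 k2⟩
  · right
    have k1 : 0 < (g⁻¹).m := by simp; omega
    have a := sameEnd_neg D CH hCH g⁻¹ h k1 h2
    rw [inv_inv] at a
    exact ⟨a, sameEnd_pos D _ _ k1 h2⟩
  · right
    have k2 : 0 < (h⁻¹).m := by simp; omega
    have a := sameEnd_neg D CH hCH g h⁻¹ h1 k2
    rw [inv_inv] at a
    exact ⟨sameEnd_pos D _ _ h1 k2, a⟩
  · left
    exact ⟨sameEnd_pos D _ _ h1 h2, sameEnd_neg D CH hCH g h h1 h2⟩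

/-- Any two loxodromic elements share an end. -/
theorem share (g h : E) (hg : Lox L g) (hh : Lox L h) :
    SameEnd L g h ∨ SameEnd L g h⁻¹ ∨ SameEnd L g⁻¹ h ∨ SameEnd L g⁻¹ h⁻¹ := by
  rcases lt_or_gt_of_ne (lox_m_ne D.len C0 D.bd hg) with h1 | h1 <;>
  rcases lt_or_gt_of_ne (lox_m_ne D.len C0 D.bd hh) with h2 | h2
  · exact Or.inr (Or.inr (Or.inr (sameEnd_pos D _ _ (by simp; omega) (by simp; omega))))
  · exact Or.inr (Or.inr (Or.inl (sameEnd_pos D _ _ (by simp; omega) h2)))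
  · exact Or.inr (Or.inl (sameEnd_pos D _ _ h1 (by simp; omega)))
  · exact Or.inl (sameEnd_pos D _ _ h1 h2)

end

/-! ### The level function and the tree metric -/

theorem kap_ex (g : E) : ∃ i : ℕ, g.m ≤ i ∧ ∀ j : ℤ, (i : ℤ) < j → g.s j ∈ F0 := by
  obtain ⟨N, hN⟩ := g.hs
  exact ⟨(max N g.m).toNat, by omega, fun j hj => hN j (by omega)⟩

open Classical in
/-- The level: the least height of a common ancestor of the base vertex and its image. -/
noncomputable def kap (g : E) : ℕ := Nat.find (kap_ex g)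

theorem kap_m (g : E) : g.m ≤ kap g := by
  classical exact (Nat.find_spec (kap_ex g)).1

theorem kap_s (g : E) {j : ℤ} (hj : (kap g : ℤ) < j) : g.s j ∈ F0 := by
  classical exact (Nat.find_spec (kap_ex g)).2 j hj

theorem kap_le (g : E) (i : ℕ) (h1 : g.m ≤ i) (h2 : ∀ j : ℤ, (i : ℤ) < j → g.s j ∈ F0) :
    kap g ≤ i := by
  classical exact Nat.find_min' _ ⟨h1, h2⟩

theorem kap_lt (g : E) (i : ℕ) (hi : i < kap g) (hm : g.m ≤ i) :
    ∃ j : ℤ, (i : ℤ) < j ∧ g.s j ∉ F0 := by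
  by_contra hno
  push Not at hno
  have := kap_le g i hm hno
  omega

theorem kap_mul (a b : E) : (kap (a * b) : ℤ) ≤ max (kap a : ℤ) (kap b + a.m) := by
  have h0 : (0 : ℤ) ≤ max (kap a : ℤ) (kap b + a.m) := le_trans (by omega) (le_max_left _ _)
  obtain ⟨i, hi⟩ := Int.eq_ofNat_of_zero_le h0
  have h1 := kap_m a
  have h2 := kap_m b
  have h3 := le_max_left (kap a : ℤ) (kap b + a.m)
  have h4 := le_max_right (kap a : ℤ) (kap b + a.m)
  rw [hi] at h3 h4 ⊢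
  have : kap (a * b) ≤ i := by
    apply kap_le
    · rw [mul_m]; omega
    · intro j hj
      rw [mul_s]
      exact mul_mem (kap_s a (by omega)) (kap_s b (by omega))
  exact_mod_cast this

theorem kap_inv_le (a : E) : (kap a⁻¹ : ℤ) ≤ kap a - a.m := by
  have h1 := kap_m a
  obtain ⟨i, hi⟩ := Int.eq_ofNat_of_zero_le (show 0 ≤ (kap a : ℤ) - a.m by omega)
  rw [hi]
  have : kap a⁻¹ ≤ i := by
    apply kap_le
    · rw [inv_m]; omega
    · intro j hj
      rw [inv_s]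
      exact inv_mem (kap_s a (by omega))
  exact_mod_cast this

theorem kap_inv (a : E) : (kap a⁻¹ : ℤ) = kap a - a.m := by
  have h1 := kap_inv_le a
  have h2 := kap_inv_le a⁻¹
  rw [inv_inv, inv_m] at h2
  omega

/-- The tree distance between the base vertex and its image. -/
noncomputable def d (g : E) : ℤ := 2 * kap g - g.m

theorem d_mul (a b : E) : d (a * b) ≤ d a + d b := by
  have h1 := kap_mul a b
  have h2 := kap_m a
  have h3 := kap_m b
  simp only [d, mul_m]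
  rcases max_cases (kap a : ℤ) (kap b + a.m) with h | h
  · omega
  · omega

theorem d_inv (a : E) : d a⁻¹ = d a := by
  simp only [d, kap_inv, inv_m]
  ring

theorem d_ge (a : E) : |a.m| ≤ d a := by
  have h2 := kap_m a
  simp only [d]
  rw [abs_le]
  constructor <;> omega

theorem kap_H0 {h : E} (hh : h ∈ H0) : kap h = 0 := by
  have := kap_le h 0 (by rw [hh.1]; simp) (fun j hj => hh.2 j (by exact_mod_cast hj))
  omega

theorem d_H0 {h : E} (hh : h ∈ H0) : d h = 0 := by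
  simp [d, kap_H0 hh, hh.1]

theorem kap_t : kap t ≤ 1 := kap_le t 1 (by simp) (fun j _ => by simp [one_mem])

theorem d_t : d t ≤ 1 := by
  have := kap_t
  simp only [d, t_m]
  omega

/-- Four point inequality for the tree metric. -/
theorem d_four (x y z : E) :
    min (d x + d y - d (x⁻¹ * y)) (d y + d z - d (y⁻¹ * z)) ≤ d x + d z - d (x⁻¹ * z) := by
  have e1 : x⁻¹ * z = (x⁻¹ * y) * (y⁻¹ * z) := by group
  have e2 : x⁻¹ * y = (x⁻¹ * z) * (y⁻¹ * z)⁻¹ := by group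
  have e3 : y⁻¹ * z = (x⁻¹ * y)⁻¹ * (x⁻¹ * z) := by group
  have e4 : x = y * (x⁻¹ * y)⁻¹ := by group
  have e5 : y = x * (x⁻¹ * y) := by group
  have e6 : x⁻¹ * y = x⁻¹ * y := rfl
  have e7 : z = y * (y⁻¹ * z) := by group
  have e8 : y = z * (y⁻¹ * z)⁻¹ := by group
  have e9 : z = x * (x⁻¹ * z) := by group
  have e10 : x = z * (x⁻¹ * z)⁻¹ := by group
  have k1 := kap_mul (x⁻¹ * y) (y⁻¹ * z)
  have k2 := kap_mul (x⁻¹ * z) (y⁻¹ * z)⁻¹
  have k3 := kap_mul (x⁻¹ * y)⁻¹ (x⁻¹ * z)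
  have k4 := kap_mul y (x⁻¹ * y)⁻¹
  have k5 := kap_mul x (x⁻¹ * y)
  have k6 := kap_mul x⁻¹ y
  have k7 := kap_mul y (y⁻¹ * z)
  have k8 := kap_mul z (y⁻¹ * z)⁻¹
  have k9 := kap_mul x (x⁻¹ * z)
  have k10 := kap_mul z (x⁻¹ * z)⁻¹
  have k11 := kap_mul y⁻¹ z
  have k12 := kap_mul x⁻¹ z
  rw [← e1] at k1
  rw [← e2, kap_inv] at k2
  rw [← e3, kap_inv] at k3
  rw [← e4, kap_inv] at k4
  rw [← e5] at k5
  rw [← e7] at k7
  rw [← e8, kap_inv] at k8
  rw [← e9] at k9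
  rw [← e10, kap_inv] at k10
  rw [kap_inv] at k6 k11 k12
  simp only [mul_m, inv_m] at *
  simp only [d, mul_m, inv_m]
  omega

end Pool.Agent.W375.Fin
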