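import Mathlib
import Pool.Agent.W375.Fin

/-!
# Word lengths, the generating set `X = H_0 ∪ {t}` and uniqueness
-/

set_option autoImplicit false

namespace Pool.Agent.W375.Struct

open Pool.Agent.W375.Geo Pool.Agent.W375.Grp Pool.Agent.W375.Grp.E Pool.Agent.W375.Core
open Pool.Agent.W375.Unif Pool.Agent.W375.Fin
open scoped Pointwise

theorem exists_pow {G : Type*} [Group G] {S : Set G} (hS : Subgroup.closure S = ⊤) (g : G) :
    ∃ n : ℕ, g ∈ (S ∪ S⁻¹) ^ n := by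
  have hg : g ∈ Subgroup.closure S := by rw [hS]; trivial
  induction hg using Subgroup.closure_induction with
  | mem x hx => exact ⟨1, by rw [pow_one]; exact Or.inl hx⟩
  | one => exact ⟨0, by rw [pow_zero]; exact Set.mem_one.2 rfl⟩
  | mul x y _ _ hx hy =>
    obtain ⟨n, hn⟩ := hx
    obtain ⟨m, hm⟩ := hy
    exact ⟨n + m, by rw [pow_add]; exact Set.mul_mem_mul hn hm⟩
  | inv x _ hx =>
    obtain ⟨n, hn⟩ := hx
    refine ⟨n, ?_⟩
    have e1 : (S ∪ S⁻¹)⁻¹ = S ∪ S⁻¹ := by rw [Set.union_inv, inv_inv, Set.union_comm]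
    rw [← e1, inv_pow, Set.inv_mem_inv]
    exact hn

/-- The word length as used in the frozen statement. -/
structure WL {G : Type*} [Group G] (S : Set G) (l : G → ℕ) : Prop where
  gen : Subgroup.closure S = ⊤
  eq : ∀ g, l g = sInf {n : ℕ | g ∈ (S ∪ S⁻¹) ^ n}

theorem WL.mem {G : Type*} [Group G] {S : Set G} {l : G → ℕ} (h : WL S l) (g : G) :
    g ∈ (S ∪ S⁻¹) ^ (l g) := by
  rw [h.eq]
  exact Nat.sInf_mem (exists_pow h.gen g)

theorem WL.le {G : Type*} [Group G] {S : Set G} {l : G → ℕ} (h : WL S l) {g : G} {n : ℕ}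
    (hg : g ∈ (S ∪ S⁻¹) ^ n) : l g ≤ n := by
  rw [h.eq]
  exact Nat.sInf_le hg

theorem WL.isLen {G : Type*} [Group G] {S : Set G} {l : G → ℕ} (h : WL S l) : IsLen l := by
  have hle : ∀ x, l x⁻¹ ≤ l x := by
    intro x
    apply h.le
    have e1 : (S ∪ S⁻¹)⁻¹ = S ∪ S⁻¹ := by rw [Set.union_inv, inv_inv, Set.union_comm]
    rw [← e1, inv_pow, Set.inv_mem_inv]
    exact h.mem x
  refine ⟨fun x y => h.le ?_, fun x => le_antisymm (hle x) ?_, ?_⟩
  · rw [pow_add]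
    exact Set.mul_mem_mul (h.mem x) (h.mem y)
  · have := hle x⁻¹
    rwa [inv_inv] at this
  · have : l (1 : G) ≤ 0 := h.le (by rw [pow_zero]; exact Set.mem_one.2 rfl)
    omega

theorem WL.one {G : Type*} [Group G] {S : Set G} {l : G → ℕ} (h : WL S l) {s : G} (hs : s ∈ S) :
    l s ≤ 1 := h.le (by rw [pow_one]; exact Or.inl hs)

/-- Subadditive functions bounded on generators are bounded by the word length. -/
theorem WL.bound {G : Type*} [Group G] {S : Set G} {l : G → ℕ} (h : WL S l) (f : G → ℤ)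
    (hmul : ∀ x y, f (x * y) ≤ f x + f y) (hinv : ∀ x, f x⁻¹ = f x) (hone : f 1 ≤ 0)
    (B : ℤ) (hS : ∀ s ∈ S, f s ≤ B) (g : G) : f g ≤ B * l g := by
  have key : ∀ (n : ℕ) (g : G), g ∈ (S ∪ S⁻¹) ^ n → f g ≤ B * n := by
    intro n
    induction n with
    | zero =>
      intro g hg
      rw [pow_zero, Set.mem_one] at hg
      rw [hg]
      simpa using hone
    | succ n ih =>
      intro g hg
      rw [pow_succ] at hg
      obtain ⟨a, ha, b, hb, rfl⟩ := hg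
      have h1 := ih a ha
      have h2 : f b ≤ B := by
        rcases hb with hb | hb
        · exact hS b hb
        · rw [← hinv]
          exact hS _ hb
      have h3 := hmul a b
      push_cast
      have : B * ((n : ℤ) + 1) = B * n + B := by ring
      rw [this]
      show f (a * b) ≤ _
      linarith
  exact key _ g (h.mem g)

/-- The generating set. -/
def X : Set E := {g | g ∈ H0 ∨ g = t}

/-- Normal form: `t ^ (-κ) g t ^ (κ - m) ∈ H_0`. -/
theorem normal_form (g : E) : ∃ (i j : ℕ) (h : E), h ∈ H0 ∧ g = t ^ i * h * (t ^ j)⁻¹ ∧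
    (i : ℤ) + j = d g := by
  have h1 := kap_m g
  obtain ⟨j, hj⟩ := Int.eq_ofNat_of_zero_le (show 0 ≤ (kap g : ℤ) - g.m by omega)
  refine ⟨kap g, j, (t ^ kap g)⁻¹ * g * t ^ j, ⟨?_, fun i hi => ?_⟩, by group, ?_⟩
  · simp only [mul_m, inv_m, t_pow_m]
    omega
  · have : ((t ^ kap g)⁻¹ * g * t ^ j).s i = g.s (i + kap g) := by simp
    rw [this]
    exact kap_s g (by omega)
  · simp only [d]
    omega

theorem X_gen : Subgroup.closure X = ⊤ := by
  rw [eq_top_iff]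
  intro g _
  obtain ⟨i, j, h, hh, e, -⟩ := normal_form g
  have ht : t ∈ Subgroup.closure X := Subgroup.subset_closure (Or.inr rfl)
  rw [e]
  exact mul_mem (mul_mem (pow_mem ht _) (Subgroup.subset_closure (Or.inl hh)))
    (inv_mem (pow_mem ht _))

section

variable {LX : E → ℕ} (hX : WL X LX)

include hX

theorem LX_ge (g : E) : d g ≤ LX g := by
  have := hX.bound d d_mul d_inv (by rw [d_H0 (one_mem _)]) 1 (by
    rintro s (hs | rfl)
    · rw [d_H0 hs]; norm_num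
    · exact d_t) g
  simpa using this

theorem LX_le (g : E) : (LX g : ℤ) ≤ d g + 1 := by
  obtain ⟨i, j, h, hh, e, hd⟩ := normal_form g
  have hL := hX.isLen
  have h1 := hL.mul (t ^ i * h) (t ^ j)⁻¹
  have h2 := hL.mul (t ^ i) h
  have h3 := hL.pow_le t i
  have h4 := hL.pow_le t j
  have h5 : LX t ≤ 1 := hX.one (Or.inr rfl)
  have h6 : LX h ≤ 1 := hX.one (Or.inl hh)
  rw [hL.inv] at h1
  rw [← e] at h1
  have h7 : i * LX t ≤ i := by nlinarith
  have h8 : j * LX t ≤ j := by nlinarith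
  rw [← hd]
  omega

theorem LX_hyp : Hyp LX (3 / 2) := by
  intro x y z
  have h1 := d_four x y z
  have a1 := LX_ge hX x
  have a2 := LX_ge hX z
  have a3 := LX_le hX (x⁻¹ * z)
  have b1 := LX_le hX x
  have b2 := LX_le hX y
  have b3 := LX_ge hX (x⁻¹ * y)
  have c1 := LX_le hX z
  have c3 := LX_ge hX (y⁻¹ * z)
  have a1' : ((d x : ℤ) : ℝ) ≤ LX x := by exact_mod_cast a1
  have a2' : ((d z : ℤ) : ℝ) ≤ LX z := by exact_mod_cast a2
  have a3' : (LX (x⁻¹ * z) : ℝ) ≤ (d (x⁻¹ * z) : ℤ) + 1 := by exact_mod_cast a3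
  have b1' : (LX x : ℝ) ≤ (d x : ℤ) + 1 := by exact_mod_cast b1
  have b2' : (LX y : ℝ) ≤ (d y : ℤ) + 1 := by exact_mod_cast b2
  have b3' : ((d (x⁻¹ * y) : ℤ) : ℝ) ≤ LX (x⁻¹ * y) := by exact_mod_cast b3
  have c1' : (LX z : ℝ) ≤ (d z : ℤ) + 1 := by exact_mod_cast c1
  have c3' : ((d (y⁻¹ * z) : ℤ) : ℝ) ≤ LX (y⁻¹ * z) := by exact_mod_cast c3
  rcases min_cases (d x + d y - d (x⁻¹ * y)) (d y + d z - d (y⁻¹ * z)) with h | h
  · rw [h.1] at h1
    have h1' : ((d x : ℤ) : ℝ) + (d y : ℤ) - (d (x⁻¹ * y) : ℤ) ≤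
      (d x : ℤ) + (d z : ℤ) - (d (x⁻¹ * z) : ℤ) := by exact_mod_cast h1
    have := min_le_left (gp LX x y) (gp LX y z)
    simp only [gp] at *
    linarith
  · rw [h.1] at h1
    have h1' : ((d y : ℤ) : ℝ) + (d z : ℤ) - (d (y⁻¹ * z) : ℤ) ≤
      (d x : ℤ) + (d z : ℤ) - (d (x⁻¹ * z) : ℤ) := by exact_mod_cast h1
    have := min_le_right (gp LX x y) (gp LX y z)
    simp only [gp] at *
    linarith

theorem LX_abs (g : E) : |g.m| ≤ LX g := (d_ge g).trans (LX_ge hX g)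

/-- An element with `m = 1` (or any `m ≠ 0`) is loxodromic. -/
theorem LX_lox (g : E) (hg : g.m = 1) : Lox LX g := by
  refine ⟨1, one_pos, fun n => ?_⟩
  have h1 := LX_abs hX (g ^ n)
  rw [pow_m, hg, one_mul] at h1
  have h2 : ((n : ℤ) : ℤ) ≤ LX (g ^ n) := (le_abs_self _).trans h1
  rw [one_mul]
  exact_mod_cast h2

theorem LX_data : ∃ M : ℝ, Data LX (3 / 2) 1 M 1 := by
  have h1 : ∀ n : ℕ, (1 : ℝ) * (n : ℝ) ≤ LX (t ^ n) := by
    intro n
    have h1 := LX_abs hX (t ^ n)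
    rw [t_pow_m] at h1
    have h2 : ((n : ℤ) : ℤ) ≤ LX (t ^ n) := (le_abs_self _).trans h1
    rw [one_mul]
    exact_mod_cast h2
  obtain ⟨M, hM, h⟩ := almost_additive hX.isLen (LX_hyp hX) t 1 one_pos h1
  exact ⟨M, hX.isLen, LX_hyp hX, by norm_num, one_pos, hM,
    fun h hh => hX.one (Or.inl hh), h1, h⟩

end

/-- A permutation moving the point `0`. -/
def a0 : F := ⟨Equiv.swap 0 1 * Equiv.swap 2 3, by
  rw [Equiv.Perm.mem_alternatingGroup, Equiv.Perm.sign_mul, Equiv.Perm.sign_swap (by decide),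
    Equiv.Perm.sign_swap (by decide)]
  rfl⟩

theorem a0_not : a0 ∉ F0 := by
  rw [mem_F0]
  decide

/-- The element of `H_0` given by `a0` at the coordinate `0`. -/
def s0 : E := ⟨0, fun i => if i = 0 then a0 else 1, 0, fun n hn => by
  rw [if_neg (by omega)]; exact one_mem _⟩

theorem s0_mem : s0 ∈ H0 := ⟨rfl, fun i hi => by
  show (if i = 0 then a0 else 1) ∈ F0
  rw [if_neg (by omega)]; exact one_mem _⟩

section

variable {LX : E → ℕ} (hX : WL X LX)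

include hX

theorem LX_t_pow (n : ℕ) : LX (t ^ n) ≤ n := by
  have h1 := hX.isLen.pow_le t n
  have h5 : LX t ≤ 1 := hX.one (Or.inr rfl)
  nlinarith

theorem not_same1 : ¬ SameEnd LX t⁻¹ (s0 * t * s0⁻¹)⁻¹ := by
  intro hs
  obtain ⟨N, hN⟩ := hs 2
  have h := hN (N + 1) (N + 1) (by omega) (by omega)
  have hL := hX.isLen
  have e1 : (s0 * t * s0⁻¹)⁻¹ ^ (N + 1) = s0 * (t ^ (N + 1))⁻¹ * s0⁻¹ := by
    have : (s0 * t * s0⁻¹)⁻¹ = s0 * t⁻¹ * s0⁻¹ := by group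
    rw [this, conj_pow, inv_pow]
  rw [e1, inv_pow] at h
  have h1 : LX (t ^ (N + 1))⁻¹ ≤ N + 1 := by rw [hL.inv]; exact LX_t_pow hX _
  have hs0 : LX s0 ≤ 1 := hX.one (Or.inl s0_mem)
  have h2 : LX (s0 * (t ^ (N + 1))⁻¹ * s0⁻¹) ≤ N + 3 := by
    have a1 := hL.mul (s0 * (t ^ (N + 1))⁻¹) s0⁻¹
    have a2 := hL.mul s0 (t ^ (N + 1))⁻¹
    rw [hL.inv s0] at a1
    omega
  have h3 : (2 * (N + 1) : ℤ) ≤ LX (((t ^ (N + 1))⁻¹)⁻¹ * (s0 * (t ^ (N + 1))⁻¹ * s0⁻¹)) := by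
    refine le_trans ?_ (LX_ge hX _)
    set w := ((t ^ (N + 1))⁻¹)⁻¹ * (s0 * (t ^ (N + 1))⁻¹ * s0⁻¹) with hw
    have hwm : w.m = 0 := by simp [hw, s0]
    have hws : w.s (N + 1) = a0 := by
      have : w.s (N + 1) = (if ((N : ℤ) + 1 - (N + 1) = 0) then a0 else 1) *
          (if ((N : ℤ) + 1 = 0) then a0 else 1)⁻¹ := by
        simp [hw, s0]
      rw [this, if_pos (by ring), if_neg (by omega)]
      simp
    have hk : (N : ℤ) + 1 ≤ kap w := by
      by_contra hlt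
      push Not at hlt
      have := kap_s w hlt
      rw [hws] at this
      exact a0_not this
    simp only [d, hwm]
    omega
  have h3' : (2 * (N + 1) : ℝ) ≤ LX (((t ^ (N + 1))⁻¹)⁻¹ * (s0 * (t ^ (N + 1))⁻¹ * s0⁻¹)) := by
    exact_mod_cast h3
  have h1' : (LX (t ^ (N + 1))⁻¹ : ℝ) ≤ N + 1 := by exact_mod_cast h1
  have h2' : (LX (s0 * (t ^ (N + 1))⁻¹ * s0⁻¹) : ℝ) ≤ N + 3 := by exact_mod_cast h2
  simp only [gp] at h
  linarith

theorem not_same2 : ¬ SameEnd LX t (s0 * t * s0⁻¹)⁻¹ := by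
  intro hs
  obtain ⟨N, hN⟩ := hs 2
  have h := hN (N + 1) (N + 1) (by omega) (by omega)
  have hL := hX.isLen
  have e1 : (s0 * t * s0⁻¹)⁻¹ ^ (N + 1) = s0 * (t ^ (N + 1))⁻¹ * s0⁻¹ := by
    have : (s0 * t * s0⁻¹)⁻¹ = s0 * t⁻¹ * s0⁻¹ := by group
    rw [this, conj_pow, inv_pow]
  rw [e1] at h
  have h1 : LX (t ^ (N + 1)) ≤ N + 1 := LX_t_pow hX _
  have h1'' : LX (t ^ (N + 1))⁻¹ ≤ N + 1 := by rw [hL.inv]; exact h1
  have hs0 : LX s0 ≤ 1 := hX.one (Or.inl s0_mem)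
  have h2 : LX (s0 * (t ^ (N + 1))⁻¹ * s0⁻¹) ≤ N + 3 := by
    have a1 := hL.mul (s0 * (t ^ (N + 1))⁻¹) s0⁻¹
    have a2 := hL.mul s0 (t ^ (N + 1))⁻¹
    rw [hL.inv s0] at a1
    omega
  have h3 : (2 * (N + 1) : ℤ) ≤ LX ((t ^ (N + 1))⁻¹ * (s0 * (t ^ (N + 1))⁻¹ * s0⁻¹)) := by
    refine le_trans ?_ (LX_abs hX _)
    have : ((t ^ (N + 1))⁻¹ * (s0 * (t ^ (N + 1))⁻¹ * s0⁻¹)).m = -(2 * (N + 1)) := by
      simp [s0]
      ring
    rw [this, abs_neg]
    exact le_abs_self _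
  have h3' : (2 * (N + 1) : ℝ) ≤ LX ((t ^ (N + 1))⁻¹ * (s0 * (t ^ (N + 1))⁻¹ * s0⁻¹)) := by
    exact_mod_cast h3
  have h1' : (LX (t ^ (N + 1)) : ℝ) ≤ N + 1 := by exact_mod_cast h1
  have h2' : (LX (s0 * (t ^ (N + 1))⁻¹ * s0⁻¹) : ℝ) ≤ N + 3 := by exact_mod_cast h2
  simp only [gp] at h
  linarith

end

/-- The quasi-parabolic conditions for a word length. -/
structure QPD (S : Set E) (L : E → ℕ) : Prop where
  wl : WL S L
  hyp : ∃ δ : ℝ, Hyp L δ
  two : ∃ g h : E, Lox L g ∧ Lox L h ∧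
    ¬ ((SameEnd L g h ∧ SameEnd L g⁻¹ h⁻¹) ∨ (SameEnd L g h⁻¹ ∧ SameEnd L g⁻¹ h))
  share : ∀ g h : E, Lox L g → Lox L h →
    (SameEnd L g h ∨ SameEnd L g h⁻¹ ∨ SameEnd L g⁻¹ h ∨ SameEnd L g⁻¹ h⁻¹)

theorem QPD_X {LX : E → ℕ} (hX : WL X LX) : QPD X LX := by
  obtain ⟨M, D⟩ := LX_data hX
  refine ⟨hX, ⟨_, LX_hyp hX⟩, ⟨t, s0 * t * s0⁻¹, LX_lox hX t rfl, LX_lox hX _ (by simp [s0]),
    ?_⟩, share D⟩
  rintro (h | h)
  · exact not_same1 hX h.2
  · exact not_same2 hX h.1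

/-- Uniqueness. -/
theorem unique {LX : E → ℕ} (hX : WL X LX) {Y : Set E} {LY : E → ℕ} (hY : QPD Y LY) :
    (∃ C : ℕ, ∀ y ∈ Y, LX y ≤ C) ∧ (∃ C : ℕ, ∀ x ∈ X, LY x ≤ C) := by
  have hL := hY.wl.isLen
  obtain ⟨C0, hC0⟩ := H0_bounded hL
  obtain ⟨g, h, hg, hh, hne⟩ := hY.two
  obtain ⟨δ, hδ⟩ := hY.hyp
  obtain ⟨c, hc, ht⟩ := lox_t hL C0 hC0 hg
  obtain ⟨M, hM, hadd⟩ := almost_additive hL hδ t c hc ht
  have hδ0 : 0 ≤ δ := by
    have := hδ 1 1 1
    simp [gp, hL.one] at this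
    exact this
  have D : Data LY δ c M C0 := ⟨hL, hδ, hδ0, hc, hM, hC0, ht, hadd⟩
  refine ⟨?_, ⟨C0 + LY t, ?_⟩⟩
  · -- bound for the shift part on `Y`
    obtain ⟨C1, hC1⟩ := exists_nat_gt ((1 + C0 + M) / c)
    have hm : ∀ y ∈ Y, |y.m| ≤ C1 := by
      intro y hy
      have h1 := busemann D y
      have h2 : (LY y : ℝ) ≤ 1 := by exact_mod_cast hY.wl.one hy
      rw [div_lt_iff₀ hc] at hC1
      have h3 : |(y.m : ℝ)| < C1 := by
        by_contra hge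
        push Not at hge
        nlinarith
      have h4 : ((|y.m| : ℤ) : ℝ) < ((C1 : ℤ) : ℝ) := by
        rw [Int.cast_abs]; exact_mod_cast h3
      exact_mod_cast h4.le
    by_cases hB : ∃ B : ℕ, ∀ y ∈ Y, kap y ≤ B
    · obtain ⟨B, hB⟩ := hB
      refine ⟨2 * B + C1 + 1, fun y hy => ?_⟩
      have h1 := LX_le hX y
      have h2 := hB y hy
      have h3 := hm y hy
      rw [abs_le] at h3
      simp only [d] at h1
      omega
    · exfalso
      push Not at hB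
      have hbig : ∀ K : ℕ, ∃ (g : E) (i : ℤ), g.m = 0 ∧ (K : ℤ) < i ∧ g.s i ∉ F0 ∧
          LY g ≤ 1 + C1 * LY t := by
        intro K
        obtain ⟨y, hy, hk⟩ := hB (max K C1 + 1)
        have h3 := hm y hy
        rw [abs_le] at h3
        obtain ⟨j, hj, hjs⟩ := kap_lt y (max K C1) (by omega) (by omega)
        refine ⟨y * (t ^ y.m)⁻¹, j, by simp, by omega, ?_, ?_⟩
        · have : (y * (t ^ y.m)⁻¹).s j = y.s j := by simp
          rw [this]
          exact hjs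
        · have h4 := hL.mul y (t ^ y.m)⁻¹
          rw [hL.inv] at h4
          have h5 : LY (t ^ y.m) ≤ C1 * LY t := by
            obtain ⟨n, hn | hn⟩ := Int.eq_nat_or_neg y.m
            · rw [hn, zpow_natCast]
              have := hL.pow_le t n
              have hn' : n ≤ C1 := by omega
              exact this.trans (Nat.mul_le_mul_right _ hn')
            · rw [hn, zpow_neg, zpow_natCast, hL.inv]
              have := hL.pow_le t n
              have hn' : n ≤ C1 := by omega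
              exact this.trans (Nat.mul_le_mul_right _ hn')
          have h6 := hY.wl.one hy
          omega
      obtain ⟨CH, hCH⟩ := H_bounded D _ hbig
      exact hne (same_pairs D CH hCH g h hg hh)
  · rintro x (hx | rfl)
    · have := hC0 x hx
      omega
    · omega

end Pool.Agent.W375.Struct
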